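import Pool.Agent.W823.QT.Stm

/-!
# Project QT: Khasminskii's lemma for the weighted walk
-/

set_option autoImplicit false

namespace Pool.Agent.W366.QTKH

open MeasureTheory Pool.Agent.W823.QT
open scoped ENNReal NNReal

theorem prod_Icc_one (f : ℕ → ℝ≥0∞) (m : ℕ) :
    ∏ i ∈ Finset.Icc 1 m, f i = ∏ i ∈ Finset.range m, f (1 + i) := by
  have h : Finset.Icc 1 m = Finset.Ico 1 (m + 1) := by
    ext i
    simp only [Finset.mem_Icc, Finset.mem_Ico]
    omega
  rw [h, Finset.prod_Ico_eq_prod_range, Nat.add_sub_cancel]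

theorem sum_Icc_one (f : ℕ → ℝ≥0∞) (m : ℕ) :
    ∑ i ∈ Finset.Icc 1 m, f i = ∑ i ∈ Finset.range m, f (1 + i) := by
  have h : Finset.Icc 1 m = Finset.Ico 1 (m + 1) := by
    ext i
    simp only [Finset.mem_Icc, Finset.mem_Ico]
    omega
  rw [h, Finset.sum_Ico_eq_sum_range, Nat.add_sub_cancel]

theorem prod_peel (f : ℕ → ℝ≥0∞) (m : ℕ) :
    ∏ i ∈ Finset.Icc 1 (m + 1), f i = (∏ i ∈ Finset.Icc 1 m, f (1 + i)) * f 1 := by
  rw [prod_Icc_one, prod_Icc_one, Finset.prod_range_succ']
  congr 1
  refine Finset.prod_congr rfl fun i _ => ?_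
  rw [add_comm i 1]

theorem sum_peel (f : ℕ → ℝ≥0∞) (m : ℕ) :
    ∑ i ∈ Finset.Icc 1 (m + 1), f i = (∑ i ∈ Finset.Icc 1 m, f (1 + i)) + f 1 := by
  rw [sum_Icc_one, sum_Icc_one, Finset.sum_range_succ']
  congr 1
  refine Finset.sum_congr rfl fun i _ => ?_
  rw [add_comm i 1]

theorem expand (m : ℕ) : ∀ x : ℕ → ℝ≥0∞, ∏ i ∈ Finset.Icc 1 m, (1 + x i) =
    1 + ∑ i ∈ Finset.Icc 1 m, x i * ∏ j ∈ Finset.Icc 1 (m - i), (1 + x (i + j)) := by
  induction m with
  | zero => intro x; simp
  | succ m ih =>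
    intro x
    rw [prod_peel, sum_peel, ih (fun i => x (1 + i)), Nat.add_sub_cancel, mul_add, mul_one]
    have h1 : ∑ i ∈ Finset.Icc 1 m, x (1 + i) *
        ∏ j ∈ Finset.Icc 1 (m + 1 - (1 + i)), (1 + x (1 + i + j)) =
        ∑ i ∈ Finset.Icc 1 m, x (1 + i) *
          ∏ j ∈ Finset.Icc 1 (m - i), (1 + x (1 + (i + j))) := by
      refine Finset.sum_congr rfl fun i _ => ?_
      rw [show m + 1 - (1 + i) = m - i by omega]
      congr 1
      refine Finset.prod_congr rfl fun j _ => ?_
      rw [add_assoc]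
    have h2 : ∏ j ∈ Finset.Icc 1 m, (1 + x (1 + j)) =
        1 + ∑ i ∈ Finset.Icc 1 m, x (1 + i) *
          ∏ j ∈ Finset.Icc 1 (m - i), (1 + x (1 + (i + j))) := ih (fun i => x (1 + i))
    rw [h1, h2]
    ring

theorem pos_add {d : ℕ} (a : ℕ → Fin d → ℤ) (i j : ℕ) :
    pos a (i + j) = pos a i + pos (sh i a) j := by
  unfold pos sh
  rw [Finset.sum_range_add]

theorem measurable_pos {d : ℕ} (k : ℕ) : Measurable fun a : ℕ → Fin d → ℤ => pos a k := by
  unfold pos
  exact Finset.measurable_fun_sum _ fun i _ => measurable_pi_apply i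

theorem split {d : ℕ} (η : ℕ → (ℕ → Fin d → ℤ) → ℝ≥0∞) (ε : ℕ → ℝ≥0∞)
    (hη : ∀ k z, η k z ≤ ε k) (hε : Small ε) (h3 : SPL_T) (h4 : CRS_T) (m i : ℕ) (hi : i ≤ m)
    (a : ℕ → Fin d → ℤ) : V η m a ≤ 8 / 7 * V η i a * V η (m - i) (sh i a) := by
  have e1 : V η m a = V η i a * V η (m - i) (sh i a) *
      ∏ e ∈ (arcs m).filter (fun e => e.1 < i ∧ i < e.2), (1 + aw η a e) := by
    unfold V
    rw [h3 (aw η a) m i hi]
    congr 2
    refine Finset.prod_congr rfl fun e _ => ?_
    unfold aw
    simp only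
    rw [Nat.add_sub_add_right]
    congr 2
    funext k
    unfold pos sh
    refine Finset.sum_congr rfl fun l _ => ?_
    congr 1
    ring
  have e2 : ∏ e ∈ (arcs m).filter (fun e => e.1 < i ∧ i < e.2), (1 + aw η a e) ≤ 8 / 7 := by
    refine le_trans (Finset.prod_le_prod' fun e _ => ?_) (h4 ε hε m i)
    exact add_le_add le_rfl (hη _ _)
  rw [e1]
  calc V η i a * V η (m - i) (sh i a) *
      ∏ e ∈ (arcs m).filter (fun e => e.1 < i ∧ i < e.2), (1 + aw η a e)
      ≤ V η i a * V η (m - i) (sh i a) * (8 / 7) := by gcongr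
    _ = _ := by ring

theorem V_loc {d : ℕ} (η : ℕ → (ℕ → Fin d → ℤ) → ℝ≥0∞) (hη : Loc η) (n : ℕ)
    (a a' : ℕ → Fin d → ℤ) (h : ∀ i < n, a i = a' i) : V η n a = V η n a' := by
  unfold V
  refine Finset.prod_congr rfl fun e he => ?_
  have he' : e.2 ≤ n ∧ e.1 < e.2 := by
    unfold arcs at he
    rw [Finset.mem_filter, Finset.mem_product, Finset.mem_range, Finset.mem_range] at he
    exact ⟨by omega, he.2⟩
  congr 1
  unfold aw
  refine hη _ _ _ fun l hl => ?_
  unfold pos sh
  refine Finset.sum_congr rfl fun s hs => ?_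
  rw [Finset.mem_range] at hs
  exact h _ (by omega)

theorem main (_h1 : MEAS_T) (h2 : MARK_T) (h3 : SPL_T) (h4 : CRS_T) (h5 : SUPA_T) : KH_T := by
  intro d q _ η ε hloc hη hε C M _ _ hshift hsum v hv m
  obtain ⟨hVm, hA1, hAfin, hsup⟩ := h5 d q η ε hloc hη hε.1
  have hA0 : ∀ n, A q η n ≠ 0 := fun n h => by
    have := hA1 n
    rw [h] at this
    simp at this
  induction m using Nat.strong_induction_on generalizing v with
  | _ m ih =>
    have hvm : ∀ (i : ℕ), Measurable (v i) := fun i => Measurable.of_discrete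
    -- expansion
    have hexp : ∀ a : ℕ → Fin d → ℤ, V η m a * ∏ i ∈ Finset.Icc 1 m, (1 + v i (pos a i)) =
        V η m a + ∑ i ∈ Finset.Icc 1 m, V η m a * (v i (pos a i) *
          ∏ j ∈ Finset.Icc 1 (m - i), (1 + v (i + j) (pos a (i + j)))) := by
      intro a
      rw [expand m (fun i => v i (pos a i)), mul_add, mul_one, Finset.mul_sum]
    have hmeas : ∀ i ∈ Finset.Icc 1 m, Measurable fun a : ℕ → Fin d → ℤ =>
        V η m a * (v i (pos a i) *
          ∏ j ∈ Finset.Icc 1 (m - i), (1 + v (i + j) (pos a (i + j)))) := by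
      intro i _
      refine (hVm m).mul (((hvm i).comp (measurable_pos i)).mul ?_)
      refine Finset.measurable_fun_prod _ fun j _ => Measurable.const_add ?_ 1
      exact (hvm (i + j)).comp (measurable_pos (i + j))
    -- the terms
    have hterm : ∀ i ∈ Finset.Icc 1 m, ∫⁻ a, V η m a * (v i (pos a i) *
          ∏ j ∈ Finset.Icc 1 (m - i), (1 + v (i + j) (pos a (i + j)))) ∂(iid q) ≤
        16 / 7 * ((∫⁻ a, V η i a * v i (pos a i) ∂(iid q)) / A q η i) * A q η m := by
      intro i hi
      rw [Finset.mem_Icc] at hi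
      let F : (ℕ → Fin d → ℤ) → (ℕ → Fin d → ℤ) → ℝ≥0∞ := fun a b =>
        8 / 7 * (V η i a * v i (pos a i)) * (V η (m - i) b *
          ∏ j ∈ Finset.Icc 1 (m - i), (1 + v (i + j) (pos a i + pos b j)))
      have hFm : Measurable (Function.uncurry F) := by
        have m1 : Measurable fun p : (ℕ → Fin d → ℤ) × (ℕ → Fin d → ℤ) => V η i p.1 :=
          (hVm i).comp measurable_fst
        have m2 : Measurable fun p : (ℕ → Fin d → ℤ) × (ℕ → Fin d → ℤ) => v i (pos p.1 i) :=
          (hvm i).comp ((measurable_pos i).comp measurable_fst)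
        have m3 : Measurable fun p : (ℕ → Fin d → ℤ) × (ℕ → Fin d → ℤ) => V η (m - i) p.2 :=
          (hVm (m - i)).comp measurable_snd
        refine ((m1.mul m2).const_mul _).mul (m3.mul ?_)
        refine Finset.measurable_fun_prod _ fun j _ => Measurable.const_add ?_ 1
        refine (hvm (i + j)).comp ?_
        exact ((measurable_pos i).comp measurable_fst).add
          ((measurable_pos j).comp measurable_snd)
      have hFl : ∀ a a' b : ℕ → Fin d → ℤ, (∀ k < i, a k = a' k) → F a b = F a' b := by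
        intro a a' b h
        have e1 : pos a i = pos a' i := by
          unfold pos
          exact Finset.sum_congr rfl fun k hk => h k (Finset.mem_range.1 hk)
        simp only [F]
        rw [V_loc η hloc i a a' h, e1]
      have hle : ∀ a : ℕ → Fin d → ℤ, V η m a * (v i (pos a i) *
          ∏ j ∈ Finset.Icc 1 (m - i), (1 + v (i + j) (pos a (i + j)))) ≤ F a (sh i a) := by
        intro a
        have e1 : ∏ j ∈ Finset.Icc 1 (m - i), (1 + v (i + j) (pos a (i + j))) =
            ∏ j ∈ Finset.Icc 1 (m - i), (1 + v (i + j) (pos a i + pos (sh i a) j)) := by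
          refine Finset.prod_congr rfl fun j _ => ?_
          rw [pos_add]
        rw [e1]
        calc V η m a * (v i (pos a i) *
              ∏ j ∈ Finset.Icc 1 (m - i), (1 + v (i + j) (pos a i + pos (sh i a) j)))
            ≤ 8 / 7 * V η i a * V η (m - i) (sh i a) * (v i (pos a i) *
              ∏ j ∈ Finset.Icc 1 (m - i), (1 + v (i + j) (pos a i + pos (sh i a) j))) := by
              gcongr
              exact split η ε hη hε h3 h4 m i hi.2 a
          _ = F a (sh i a) := by
              simp only [F]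
              ring
      have hinner : ∀ a : ℕ → Fin d → ℤ, ∫⁻ b, F a b ∂(iid q) ≤
          8 / 7 * (V η i a * v i (pos a i)) * (2 * A q η (m - i)) := by
        intro a
        have m4 : Measurable fun b : ℕ → Fin d → ℤ => V η (m - i) b *
            ∏ j ∈ Finset.Icc 1 (m - i), (1 + v (i + j) (pos a i + pos b j)) := by
          refine (hVm (m - i)).mul (Finset.measurable_fun_prod _ fun j _ =>
            Measurable.const_add ?_ 1)
          exact (hvm (i + j)).comp ((measurable_pos j).const_add _)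
        simp only [F]
        rw [lintegral_const_mul _ m4]
        gcongr
        exact ih (m - i) (by omega) (fun j y => v (i + j) (pos a i + y)) (hshift v hv i (pos a i))
      have m5 : Measurable fun a : ℕ → Fin d → ℤ => V η i a * v i (pos a i) :=
        (hVm i).mul ((hvm i).comp (measurable_pos i))
      calc ∫⁻ a, V η m a * (v i (pos a i) *
            ∏ j ∈ Finset.Icc 1 (m - i), (1 + v (i + j) (pos a (i + j)))) ∂(iid q)
          ≤ ∫⁻ a, F a (sh i a) ∂(iid q) := lintegral_mono hle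
        _ = ∫⁻ a, ∫⁻ b, F a b ∂(iid q) ∂(iid q) := h2 d q i F hFm hFl
        _ ≤ ∫⁻ a, 8 / 7 * (V η i a * v i (pos a i)) * (2 * A q η (m - i)) ∂(iid q) :=
            lintegral_mono hinner
        _ = 8 / 7 * (∫⁻ a, V η i a * v i (pos a i) ∂(iid q)) * (2 * A q η (m - i)) := by
            rw [lintegral_mul_const _ (m5.const_mul _), lintegral_const_mul _ m5]
        _ = 16 / 7 * ((∫⁻ a, V η i a * v i (pos a i) ∂(iid q)) / A q η i) *
              (A q η i * A q η (m - i)) := by
            have e3 : (∫⁻ a, V η i a * v i (pos a i) ∂(iid q)) =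
                (∫⁻ a, V η i a * v i (pos a i) ∂(iid q)) / A q η i * A q η i :=
              (ENNReal.div_mul_cancel (hA0 i) (hAfin i)).symm
            have e4 : (16 / 7 : ℝ≥0∞) = 8 / 7 * 2 := by
              rw [ENNReal.div_eq_inv_mul, ENNReal.div_eq_inv_mul, mul_assoc]
              norm_num
            rw [e4]
            conv_lhs => rw [e3]
            ring
        _ ≤ 16 / 7 * ((∫⁻ a, V η i a * v i (pos a i) ∂(iid q)) / A q η i) * A q η m := by
            gcongr
            have := hsup i (m - i)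
            rw [Nat.add_sub_cancel' hi.2] at this
            exact this
    simp only [hexp]
    rw [lintegral_add_left (hVm m), lintegral_finsetSum _ hmeas, two_mul]
    refine add_le_add le_rfl ?_
    refine (Finset.sum_le_sum hterm).trans ?_
    rw [← Finset.sum_mul, ← Finset.mul_sum]
    have e5 : (16 / 7 : ℝ≥0∞) * (7 / 16) = 1 := by
      rw [ENNReal.div_eq_inv_mul, ENNReal.div_eq_inv_mul]
      have e6 : (7 : ℝ≥0∞)⁻¹ * 7 = 1 := ENNReal.inv_mul_cancel (by norm_num) (by norm_num)
      have e7 : (16 : ℝ≥0∞)⁻¹ * 16 = 1 := ENNReal.inv_mul_cancel (by norm_num) (by norm_num)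
      calc (7 : ℝ≥0∞)⁻¹ * 16 * (16⁻¹ * 7) = (7⁻¹ * 7) * (16⁻¹ * 16) := by ring
        _ = 1 := by rw [e6, e7, one_mul]
    calc 16 / 7 * (∑ i ∈ Finset.Icc 1 m,
          (∫⁻ a, V η i a * v i (pos a i) ∂(iid q)) / A q η i) * A q η m
        ≤ 16 / 7 * (7 / 16) * A q η m := by
          gcongr
          exact hsum v hv m
      _ = A q η m := by rw [e5, one_mul]

end Pool.Agent.W366.QTKH
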