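import Mathlib
import Pool.Agent.W526.LL.Stm

/-! LL-COMP: the local component at a place with a Steinberg vector. -/

namespace Pool.Agent.W366.LLComp

open Pool.Agent.W526.LL
open IsDedekindDomain WithZero Polynomial Topology

section

variable {p : Pl} {V : Type} [AddCommGroup V] [Module ℂ V] (ρ : Representation ℂ GA V)

/-- operators commuting with `GL₂(K_p)` -/
def SS (p : Pl) : Set (V →ₗ[ℂ] V) := {A | ∃ c : GA, (∀ h, c * inj p h = inj p h * c) ∧ A = ρ c}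

/-- restriction to `GL₂(K_p)` -/
noncomputable def rp (p : Pl) : Representation ℂ (GL (Fin 2) (Kv p)) V := ρ.comp (inj p)

theorem rp_apply (g : GL (Fin 2) (Kv p)) (v : V) : rp ρ p g v = ρ (inj p g) v := rfl

theorem SS_comm : ∀ A ∈ SS ρ p, ∀ g v, A (rp ρ p g v) = rp ρ p g (A v) := by
  rintro A ⟨c, hc, rfl⟩ g v
  rw [rp_apply, rp_apply, ← Module.End.mul_apply, ← Module.End.mul_apply, ← map_mul, ← map_mul,
    hc]

theorem SS_one : (LinearMap.id : V →ₗ[ℂ] V) ∈ SS ρ p :=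
  ⟨1, fun h => by rw [one_mul, mul_one], by rw [map_one]; rfl⟩

theorem act_eq (g : GA) (v : V) : ∃ A ∈ SS ρ p, ρ g v = A (rp ρ p (g p) v) := by
  obtain ⟨c, -, hc, h⟩ := exists_decomp p g
  refine ⟨ρ c, ⟨c, hc, rfl⟩, ?_⟩
  conv_lhs => rw [h]
  rw [map_mul]; rfl

/-- invariance of the spans `S P`, `P` invariant under `GL₂(K_p)` -/
theorem span_inv (P : Set V) (hP : ∀ h, ∀ v ∈ P, rp ρ p h v ∈ P) (g : GA) (w : V)
    (hw : w ∈ Submodule.span ℂ {w | ∃ A ∈ SS ρ p, ∃ v ∈ P, w = A v}) :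
    ρ g w ∈ Submodule.span ℂ {w | ∃ A ∈ SS ρ p, ∃ v ∈ P, w = A v} := by
  induction hw using Submodule.span_induction with
  | mem w hw =>
    obtain ⟨A, ⟨c, hc, rfl⟩, v, hv, rfl⟩ := hw
    obtain ⟨B, hB, hBe⟩ := act_eq (p := p) ρ (g * c) v
    rw [← Module.End.mul_apply, ← map_mul, hBe]
    exact Submodule.subset_span ⟨B, hB, _, hP _ _ hv, rfl⟩
  | zero => rw [map_zero]; exact Submodule.zero_mem _
  | add a b _ _ ha hb => rw [map_add]; exact Submodule.add_mem _ ha hb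
  | smul c a _ ha => rw [map_smul]; exact Submodule.smul_mem _ _ ha

theorem span_top (hirr : IsIrr ρ) (P : Set V) (hP : ∀ h, ∀ v ∈ P, rp ρ p h v ∈ P) {x : V}
    (hx : x ∈ P) (hx0 : x ≠ 0) :
    Submodule.span ℂ {w | ∃ A ∈ SS ρ p, ∃ v ∈ P, w = A v} = ⊤ := by
  rcases hirr.2 _ (span_inv (p := p) ρ P hP) with h | h
  · exfalso
    have h1 : x ∈ Submodule.span ℂ {w | ∃ A ∈ SS ρ p, ∃ v ∈ P, w = A v} :=
      Submodule.subset_span ⟨_, SS_one ρ, x, hx, rfl⟩
    rw [h] at h1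
    exact hx0 ((Submodule.mem_bot ℂ).mp h1)
  · exact h

theorem big_top (hirr : IsIrr ρ) {y : V} (hy : y ≠ 0) :
    bigSpan (rp ρ p) (SS ρ p) y = ⊤ := by
  have h := span_top (p := p) ρ hirr {v | ∃ g, v = rp ρ p g y} (by
    rintro h v ⟨g, rfl⟩
    exact ⟨h * g, by rw [map_mul]; rfl⟩) (x := y) ⟨1, by rw [map_one]; rfl⟩ hy
  rw [← h, bigSpan]
  congr 1
  ext w
  constructor
  · rintro ⟨A, hA, g, rfl⟩
    exact ⟨A, hA, _, ⟨g, rfl⟩, rfl⟩
  · rintro ⟨A, hA, _, ⟨g, rfl⟩, rfl⟩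
    exact ⟨A, hA, g, rfl⟩

/-- the span of the translates of `y` -/
noncomputable abbrev V1 (p : Pl) (y : V) : Submodule ℂ V :=
  bigSpan (rp ρ p) {(LinearMap.id : V →ₗ[ℂ] V)} y

theorem mem_V1 (y : V) (g : GL (Fin 2) (Kv p)) : rp ρ p g y ∈ V1 ρ p y :=
  Submodule.subset_span ⟨(LinearMap.id : V →ₗ[ℂ] V), rfl, g, rfl⟩

theorem y_mem (y : V) : y ∈ V1 ρ p y := by
  have := mem_V1 (p := p) ρ y 1
  rwa [map_one] at this

theorem V1_inv (y : V) (g : GL (Fin 2) (Kv p)) (v : V) (hv : v ∈ V1 ρ p y) :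
    rp ρ p g v ∈ V1 ρ p y := by
  induction hv using Submodule.span_induction with
  | mem w hw =>
    obtain ⟨A, rfl, h, rfl⟩ := hw
    have h1 := mem_V1 (p := p) ρ y (g * h)
    rw [map_mul] at h1
    exact h1
  | zero => rw [map_zero]; exact Submodule.zero_mem _
  | add a b _ _ ha hb => rw [map_add]; exact Submodule.add_mem _ ha hb
  | smul c a _ ha => rw [map_smul]; exact Submodule.smul_mem _ _ ha

/-- the representation on `V1` -/
noncomputable def ρ1 (p : Pl) (y : V) : Representation ℂ (GL (Fin 2) (Kv p)) (V1 ρ p y) where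
  toFun g := (rp ρ p g).restrict (V1_inv ρ y g)
  map_one' := by
    ext v
    show rp ρ p 1 (v : V) = v
    rw [map_one]; rfl
  map_mul' g h := by
    ext v
    show rp ρ p (g * h) (v : V) = rp ρ p g (rp ρ p h v)
    rw [map_mul]; rfl

theorem ρ1_apply (y : V) (g : GL (Fin 2) (Kv p)) (v : V1 ρ p y) :
    ((ρ1 ρ p y g v : V1 ρ p y) : V) = rp ρ p g v := rfl

theorem id_comm : ∀ A ∈ ({(LinearMap.id : V →ₗ[ℂ] V)} : Set (V →ₗ[ℂ] V)), ∀ g v,
    A (rp ρ p g v) = rp ρ p g (A v) := by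
  rintro A rfl g v
  rfl

theorem main_irr (hC : S_C) (hquo : S_quo) (hirr : IsIrr ρ) {y : V} (hy : y ≠ 0)
    (D : LD (Kv p)) (hSt : IsSt D (rp ρ p) y) : IsIrr (ρ1 ρ p y) := by
  obtain ⟨-, hC2, -, hC4⟩ := hC (Kv p) D V (rp ρ p) y hSt {(LinearMap.id : V →ₗ[ℂ] V)}
    (id_comm ρ)
  refine ⟨⟨⟨y, y_mem ρ y⟩, fun h => hy (congrArg Subtype.val h)⟩, ?_⟩
  intro P hP
  by_cases hPb : P = ⊥
  · exact Or.inl hPb
  right
  obtain ⟨x, hx, hx0⟩ := Submodule.exists_mem_ne_zero_of_ne_bot hPb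
  set P' : Submodule ℂ V := P.map (V1 ρ p y).subtype with hP'
  have hPinv : ∀ h, ∀ v ∈ P', rp ρ p h v ∈ P' := by
    rintro h _ ⟨v, hv, rfl⟩
    exact ⟨ρ1 ρ p y h v, hP h v hv, rfl⟩
  have hle : P' ≤ V1 ρ p y := by
    rintro _ ⟨v, hv, rfl⟩
    exact v.2
  have hyP : y ∈ P' := by
    by_contra hyP
    have htop := span_top (p := p) ρ hirr (P' : Set V) hPinv (x := (x : V)) ⟨x, hx, rfl⟩
      (fun h => hx0 (Subtype.ext h))
    -- `Iw`-fixed vectors of `P'` vanish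
    have hz : ∀ z ∈ P', (∀ k ∈ Iw (Kv p), rp ρ p k z = z) → z = 0 := by
      intro z hz hfix
      have h1 := hC2 z (hle hz) hfix
      have h2 : {v : V | ∃ A ∈ ({(LinearMap.id : V →ₗ[ℂ] V)} : Set (V →ₗ[ℂ] V)), v = A y}
          = {y} := by
        ext v
        constructor
        · rintro ⟨A, rfl, rfl⟩; rfl
        · rintro rfl; exact ⟨_, rfl, rfl⟩
      rw [h2, Submodule.mem_span_singleton] at h1
      obtain ⟨c, hc⟩ := h1
      by_cases hc0 : c = 0
      · rw [← hc, hc0, zero_smul]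
      · exfalso
        apply hyP
        have : y = c⁻¹ • z := by rw [← hc, smul_smul, inv_mul_cancel₀ hc0, one_smul]
        rw [this]
        exact P'.smul_mem _ hz
    have hfin : ∀ N, Finite (Iw (Kv p) ⧸ (Kn (Kv p) N).subgroupOf (Iw (Kv p))) :=
      fun N => hquo (Kv p) D N _ Iw_le
    have key : ∀ w ∈ Submodule.span ℂ {w | ∃ A ∈ SS ρ p, ∃ v ∈ (P' : Set V), w = A v},
        ∃ N₀ : ℕ, ∀ N, N₀ ≤ N → avg (rp ρ p) (Iw (Kv p)) (Kn (Kv p) N) w = 0 := by
      intro w hw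
      induction hw using Submodule.span_induction with
      | mem w hw =>
        obtain ⟨A, hA, v, hv, rfl⟩ := hw
        obtain ⟨n, hn⟩ := hC4 v (hle hv)
        refine ⟨n, fun N hN => ?_⟩
        have := hfin N
        rw [avg_comm (SS_comm ρ A hA)]
        have hv' : ∀ k ∈ Kn (Kv p) N, rp ρ p k v = v := fun k hk => hn k (Kn_anti hN hk)
        rw [hz _ (avg_mem hPinv hv) (fun k hk => avg_act_left hv' hk), map_zero]
      | zero => exact ⟨0, fun N _ => map_zero _⟩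
      | add a b _ _ ha hb =>
        obtain ⟨n, hn⟩ := ha
        obtain ⟨m, hm⟩ := hb
        exact ⟨max n m, fun N hN => by
          rw [map_add, hn N (le_trans (le_max_left _ _) hN), hm N (le_trans (le_max_right _ _) hN),
            add_zero]⟩
      | smul c a _ ha =>
        obtain ⟨n, hn⟩ := ha
        exact ⟨n, fun N hN => by rw [map_smul, hn N hN, smul_zero]⟩
    obtain ⟨N₀, hN₀⟩ := key y (by rw [htop]; exact Submodule.mem_top)
    have h1 := hN₀ N₀ le_rfl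
    have := hfin N₀
    rw [avg_fix hSt.iw] at h1
    exact hy h1
  have hV1 : V1 ρ p y ≤ P' := by
    refine Submodule.span_le.mpr ?_
    rintro _ ⟨A, rfl, g, rfl⟩
    exact hPinv g y hyP
  rw [eq_top_iff]
  intro v _
  obtain ⟨u, hu, huv⟩ := hV1 v.2
  have : u = v := Subtype.ext huv
  rwa [← this]

end

theorem main (hC : S_C) (hquo : S_quo) (hopen : S_open) : S_comp := by
  intro p D V _ _ ρ hirr y hy hSt
  have hSt' : IsSt D (rp ρ p) y := hSt
  have htop := big_top (p := p) ρ hirr hy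
  refine ⟨?_, ?_⟩
  · obtain ⟨-, -, -, hC4⟩ := hC (Kv p) D V (rp ρ p) y hSt' {(LinearMap.id : V →ₗ[ℂ] V)}
      (id_comm ρ)
    let τ : SmIrr (GL (Fin 2) (Kv p)) :=
      { V := V1 ρ p y
        ρ := ρ1 ρ p y
        smooth := by
          intro v
          obtain ⟨n, hn⟩ := hC4 v v.2
          exact ⟨Kn (Kv p) n, (hopen (Kv p) D.ϖ D.hϖ).1 n, fun u hu => Subtype.ext (hn u hu)⟩
        irr := main_irr ρ hC hquo hirr hy D hSt' }
    refine ⟨τ, ⟨⟨y, y_mem ρ y⟩, fun h => hy (congrArg Subtype.val h), ?_, ?_, ?_⟩, ?_⟩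
    · intro k hk
      exact Subtype.ext (hSt'.iw k hk)
    · exact Subtype.ext hSt'.w
    · apply Subtype.ext
      rw [Submodule.coe_add, Submodule.coe_sum]
      exact hSt'.har
    · show Submodule.span ℂ _ = ⊤
      rw [eq_top_iff, ← htop, bigSpan]
      refine Submodule.span_le.mpr ?_
      rintro _ ⟨A, hA, g, rfl⟩
      refine Submodule.subset_span ⟨A ∘ₗ (V1 ρ p y).subtype, ?_, ⟨rp ρ p g y, mem_V1 ρ y g⟩, rfl⟩
      intro h v
      exact SS_comm ρ A hA h (v : V)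
  · rintro σ hσ ⟨v₀, hv₀, hfix⟩
    obtain ⟨hC1, -, -, -⟩ := hC (Kv p) D V (rp ρ p) y hSt' (SS ρ p) (SS_comm ρ)
    have hA : ∀ A : σ.V →ₗ[ℂ] V, (∀ g v, A (σ.ρ g v) = ρ (inj p g) (A v)) → A = 0 := by
      intro A hA
      have h1 : A v₀ = 0 := by
        refine hC1 _ (by rw [htop]; exact Submodule.mem_top) ?_
        intro k hk
        rw [rp_apply, ← hA, hfix k hk]
      rcases σ.irr.2 (LinearMap.ker A) (by
        intro g v hv
        rw [LinearMap.mem_ker] at hv ⊢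
        rw [hA, hv, map_zero]) with h | h
      · exfalso
        apply hv₀
        have : v₀ ∈ LinearMap.ker A := h1
        rw [h] at this
        exact (Submodule.mem_bot ℂ).mp this
      · exact LinearMap.ker_eq_top.mp h
    have h0 : y ∈ (⊥ : Submodule ℂ V) := by
      have h2 : Submodule.span ℂ {w : V | ∃ A : σ.V →ₗ[ℂ] V,
        (∀ g v, A (σ.ρ g v) = ρ (inj p g) (A v)) ∧ ∃ v, w = A v} = ⊤ := hσ
      have h3 : Submodule.span ℂ {w : V | ∃ A : σ.V →ₗ[ℂ] V,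
        (∀ g v, A (σ.ρ g v) = ρ (inj p g) (A v)) ∧ ∃ v, w = A v} ≤ ⊥ := by
        refine Submodule.span_le.mpr ?_
        rintro _ ⟨A, hA', v, rfl⟩
        rw [hA A hA']
        exact (Submodule.mem_bot ℂ).mpr rfl
      apply h3
      rw [h2]
      exact Submodule.mem_top
    exact hy ((Submodule.mem_bot ℂ).mp h0)

end Pool.Agent.W366.LLComp
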