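import Mathlib
import Pool.Agent.W757.RD.StG
import Pool.Agent.W40.RQCURVE
import Pool.Agent.HopfPinch.GLib

/-! RE-DI: auxiliary lemmas. -/

set_option autoImplicit false

open Topology Filter Metric Set MeasureTheory Polynomial
open Pool.Agent.H790R3.RB (CV hF cr ND wr rt Ix yx yc sp HypTop pol)
open Pool.Agent.W757.QR (nu de fx fr d1 d2 wn RM pre)

namespace Pool.Agent.W366.REDI

open Pool.Agent.W757.RD

/-! ### jets -/

/-- `f t = a + b t ^ M + o (t ^ M)` -/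
def J (M : ℕ) (f : ℂ → ℂ) (a b : ℂ) : Prop :=
  Tendsto (fun t => (f t - a) / t ^ M) (𝓝[≠] 0) (𝓝 b)

theorem J.tend {M : ℕ} (hM : 1 ≤ M) {f : ℂ → ℂ} {a b : ℂ} (h : J M f a b) :
    Tendsto f (𝓝[≠] 0) (𝓝 a) := by
  have h0 : Tendsto (fun t : ℂ => t ^ M) (𝓝[≠] 0) (𝓝 0) := by
    have : Tendsto (fun t : ℂ => t ^ M) (𝓝 0) (𝓝 (0 ^ M)) := (continuous_pow M).tendsto 0
    rw [zero_pow (by omega)] at this
    exact this.mono_left nhdsWithin_le_nhds
  have h1 := (h0.mul h).const_add a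
  rw [zero_mul, add_zero] at h1
  refine h1.congr' ?_
  filter_upwards [self_mem_nhdsWithin] with t ht
  have : t ≠ 0 := ht
  field_simp
  ring

theorem J.const (M : ℕ) (a : ℂ) : J M (fun _ => a) a 0 := by
  unfold J
  simp only [sub_self, zero_div]
  exact tendsto_const_nhds

theorem J.add {M : ℕ} {f g : ℂ → ℂ} {a b a' b' : ℂ} (h : J M f a b) (h' : J M g a' b') :
    J M (fun t => f t + g t) (a + a') (b + b') := by
  refine (Tendsto.add h h').congr fun t => ?_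
  ring

theorem J.mul {M : ℕ} (hM : 1 ≤ M) {f g : ℂ → ℂ} {a b a' b' : ℂ} (h : J M f a b)
    (h' : J M g a' b') : J M (fun t => f t * g t) (a * a') (b * a' + a * b') := by
  have h1 := (Tendsto.mul h (h'.tend hM)).add (Tendsto.const_mul a h')
  refine h1.congr fun t => ?_
  ring

theorem J.pow {M : ℕ} (hM : 1 ≤ M) {f : ℂ → ℂ} {a b : ℂ} (h : J M f a b) (n : ℕ) :
    J M (fun t => f t ^ n) (a ^ n) ((n : ℂ) * a ^ (n - 1) * b) := by
  induction n with
  | zero => simpa using J.const M 1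
  | succ n ih =>
    have h1 := ih.mul hM h
    simp only [← pow_succ] at h1
    have e : (n : ℂ) * a ^ (n - 1) * b * a + a ^ n * b = ((n + 1 : ℕ) : ℂ) * a ^ (n + 1 - 1) * b := by
      rw [Nat.add_sub_cancel]
      rcases n with _ | n
      · simp
      · rw [Nat.add_sub_cancel]; push_cast; ring
    rwa [e] at h1

theorem J.sum {M : ℕ} {ι : Type} (s : Finset ι) {f : ι → ℂ → ℂ} {a b : ι → ℂ}
    (h : ∀ i ∈ s, J M (f i) (a i) (b i)) :
    J M (fun t => ∑ i ∈ s, f i t) (∑ i ∈ s, a i) (∑ i ∈ s, b i) := by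
  have h1 := tendsto_finsetSum s h
  refine h1.congr fun t => ?_
  rw [← Finset.sum_div, Finset.sum_sub_distrib]

theorem J.unique {M : ℕ} {f : ℂ → ℂ} {a b b' : ℂ} (h : J M f a b) (h' : J M f a b') : b = b' :=
  tendsto_nhds_unique h h'

theorem J.congr {M : ℕ} {f g : ℂ → ℂ} {a b : ℂ} (h : J M f a b) (hfg : f =ᶠ[𝓝[≠] 0] g) :
    J M g a b := by
  refine Tendsto.congr' ?_ h
  filter_upwards [hfg] with t ht
  rw [ht]

/-- Taylor coefficients -/
noncomputable def tc (f : ℂ → ℂ) (k : ℕ) : ℂ := ((Nat.factorial k : ℂ))⁻¹ * iteratedDeriv k f 0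

theorem J.of_taylor {f : ℂ → ℂ} (hf : AnalyticAt ℂ f 0) {M : ℕ} (hM : 1 ≤ M)
    (h0 : ∀ k, 1 ≤ k → k < M → tc f k = 0) : J M f (f 0) (tc f M) := by
  have hp := hf.hasFPowerSeriesAt.isBigO_sub_partialSum_pow (M + 1)
  have hs : ∀ y : ℂ, (FormalMultilinearSeries.ofScalars ℂ
      fun n => iteratedDeriv n f 0 / (n.factorial : ℂ)).partialSum (M + 1) y =
      f 0 + tc f M * y ^ M := by
    intro y
    rw [FormalMultilinearSeries.partialSum]
    have e1 : ∀ k : ℕ, (FormalMultilinearSeries.ofScalars ℂ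
        (fun n => iteratedDeriv n f 0 / (n.factorial : ℂ)) k fun _ => y) = tc f k * y ^ k := by
      intro k
      rw [FormalMultilinearSeries.ofScalars_apply_eq, tc, smul_eq_mul]
      ring
    rw [Finset.sum_congr rfl fun k _ => e1 k, Finset.sum_range_succ]
    congr 1
    obtain ⟨m, rfl⟩ : ∃ m, M = m + 1 := ⟨M - 1, by omega⟩
    rw [Finset.sum_range_succ', Finset.sum_eq_zero, zero_add]
    · simp [tc]
    · intro k hk
      rw [Finset.mem_range] at hk
      rw [h0 (k + 1) (by omega) (by omega), zero_mul]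
  simp only [hs, zero_add] at hp
  have h1 : Tendsto (fun t : ℂ => (f t - (f 0 + tc f M * t ^ M)) / t ^ M) (𝓝[≠] 0) (𝓝 0) := by
    have h2 : (fun t : ℂ => (f t - (f 0 + tc f M * t ^ M)) / t ^ M) =O[𝓝[≠] 0] fun t => t := by
      have h3 := (hp.mono nhdsWithin_le_nhds : _ =O[𝓝[≠] (0 : ℂ)] _)
      have h4 : (fun t : ℂ => (t ^ M)⁻¹) =O[𝓝[≠] 0] fun t : ℂ => (t ^ M)⁻¹ :=
        Asymptotics.isBigO_refl _ _
      have h5 := h3.mul h4.norm_right
      refine (h5.congr (fun t => by rw [div_eq_mul_inv]) (fun t => rfl)).trans ?_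
      refine Asymptotics.IsBigO.of_bound 1 ?_
      filter_upwards [self_mem_nhdsWithin] with t ht
      have ht' : t ≠ 0 := ht
      have ht0 : 0 < ‖t‖ := norm_pos_iff.mpr ht'
      rw [norm_mul, norm_pow, norm_norm, norm_norm, norm_inv, norm_pow, one_mul, pow_succ]
      have : ‖t‖ ^ M ≠ 0 := by positivity
      apply le_of_eq
      field_simp
    exact h2.trans_tendsto (tendsto_id.mono_left nhdsWithin_le_nhds)
  have h2 := h1.add_const (tc f M)
  rw [zero_add] at h2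
  refine h2.congr' ?_
  filter_upwards [self_mem_nhdsWithin] with t ht
  have ht' : t ≠ 0 := ht
  field_simp
  ring

/-! ### joint holomorphy -/

/-- iterated derivatives in the first variable -/
noncomputable def GG (Φ : ℂ → ℂ → ℂ) : ℕ → ℂ × ℂ → ℂ
  | 0 => fun p => Φ p.1 p.2
  | k + 1 => fun p => fderiv ℂ (GG Φ k) p (1, 0)

section

variable {Φ : ℂ → ℂ → ℂ} {τ : ℝ} {W : Set ℂ}

theorem GG_diff (hW : IsOpen W)
    (h : DifferentiableOn ℂ (fun p : ℂ × ℂ => Φ p.1 p.2) (ball 0 τ ×ˢ W)) :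
    ∀ k, DifferentiableOn ℂ (GG Φ k) (ball 0 τ ×ˢ W)
  | 0 => h
  | k + 1 => Pool.Agent.HopfPinch.differentiableOn_fderiv_apply (isOpen_ball.prod hW)
      (GG_diff hW h k) (1, 0)

theorem GG_eq (hW : IsOpen W)
    (h : DifferentiableOn ℂ (fun p : ℂ × ℂ => Φ p.1 p.2) (ball 0 τ ×ˢ W)) :
    ∀ k, ∀ t ∈ ball (0 : ℂ) τ, ∀ z ∈ W, iteratedDeriv k (fun t => Φ t z) t = GG Φ k (t, z)
  | 0, t, _, z, _ => by rw [iteratedDeriv_zero]; rfl
  | k + 1, t, ht, z, hz => by
    rw [iteratedDeriv_succ]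
    have h1 : iteratedDeriv k (fun t => Φ t z) =ᶠ[𝓝 t] fun t => GG Φ k (t, z) := by
      filter_upwards [isOpen_ball.mem_nhds ht] with s hs
      exact GG_eq hW h k s hs z hz
    rw [h1.deriv_eq]
    have h2 : HasFDerivAt (GG Φ k) (fderiv ℂ (GG Φ k) (t, z)) (t, z) :=
      ((GG_diff hW h k).differentiableAt
        ((isOpen_ball.prod hW).mem_nhds ⟨ht, hz⟩)).hasFDerivAt
    have h3 : HasDerivAt (fun t : ℂ => ((t, z) : ℂ × ℂ)) ((1 : ℂ), (0 : ℂ)) t :=
      (hasDerivAt_id t).prodMk (hasDerivAt_const t z)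
    exact (HasFDerivAt.comp_hasDerivAt t h2 h3).deriv

theorem cf_diff (hτ : 0 < τ) (hW : IsOpen W)
    (h : DifferentiableOn ℂ (fun p : ℂ × ℂ => Φ p.1 p.2) (ball 0 τ ×ˢ W)) (k : ℕ) :
    DifferentiableOn ℂ (cf Φ k) W := by
  have h0 : (0 : ℂ) ∈ ball (0 : ℂ) τ := mem_ball_self hτ
  have h1 : DifferentiableOn ℂ (fun z : ℂ => ((Nat.factorial k : ℂ))⁻¹ * GG Φ k (0, z)) W := by
    apply DifferentiableOn.const_mul
    exact (GG_diff hW h k).comp (f := fun z : ℂ => ((0 : ℂ), z))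
      ((differentiable_const _).prodMk differentiable_id).differentiableOn (fun z hz => ⟨h0, hz⟩)
  refine h1.congr fun z hz => ?_
  rw [cf, GG_eq hW h k 0 h0 z hz]

theorem Phi_an (h : DifferentiableOn ℂ (fun p : ℂ × ℂ => Φ p.1 p.2) (ball 0 τ ×ˢ W)) {z : ℂ} (hz : z ∈ W) :
    DifferentiableOn ℂ (fun t => Φ t z) (ball 0 τ) := by
  have h1 : DifferentiableOn ℂ (fun t : ℂ => ((t, z) : ℂ × ℂ)) (ball 0 τ) :=
    (differentiable_id.prodMk (differentiable_const _)).differentiableOn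
  exact h.comp h1 (fun t ht => ⟨ht, hz⟩)

end

/-! ### null sets -/

theorem null_pre {d : ℕ} {x : CV d} (hd : 2 ≤ d) (hx : ND x) {E : Set ℂ} (hE : volume E = 0) :
    volume {z : ℂ | (de x).eval z ≠ 0 ∧ fx x z ∈ E} = 0 := by
  have hRM := Pool.Agent.W40.RQCURVE.RM_of hd hx
  set E' := toMeasurable volume E with hE'
  have hE'0 : volume E' = 0 := by rw [hE', measure_toMeasurable, hE]
  have hE'm : MeasurableSet E' := measurableSet_toMeasurable _ _
  have h1 := Pool.Agent.W40.RQAF.task d (nu x) (de x) (fun _ => 1) E' hRM measurable_const hE'm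
  rw [setLIntegral_measure_zero _ _ hE'0] at h1
  simp only [one_mul] at h1
  have h2 := (lintegral_eq_zero_iff (by
    apply ENNReal.measurable_ofReal.comp
    exact (Pool.Agent.W40.RQAF.d1_meas (nu x) (de x)).norm.pow_const 2)).mp h1.symm
  have hSm : MeasurableSet {z : ℂ | (de x).eval z ≠ 0 ∧ fr (nu x) (de x) z ∈ E'} :=
    Pool.Agent.W40.RQAF.set_meas hE'm
  rw [Filter.EventuallyEq, ae_restrict_iff' hSm] at h2
  have hW := Pool.Agent.W40.RQAF.wn_ne hRM
  have hfin : ((wn (nu x) (de x)).roots.toFinset : Set ℂ).Finite := Finset.finite_toSet _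
  have h3 : ∀ᵐ z : ℂ, z ∉ ((wn (nu x) (de x)).roots.toFinset : Set ℂ) :=
    measure_eq_zero_iff_ae_notMem.mp (hfin.measure_zero _)
  have h4 : ∀ᵐ z : ℂ, z ∉ {z : ℂ | (de x).eval z ≠ 0 ∧ fx x z ∈ E} := by
    filter_upwards [h2, h3] with z hz2 hz3 hz
    have h5 := hz2 ⟨hz.1, subset_toMeasurable _ _ hz.2⟩
    simp only [Pi.zero_apply, ENNReal.ofReal_eq_zero] at h5
    have h6 : d1 (nu x) (de x) z = 0 := by
      have : ‖d1 (nu x) (de x) z‖ ^ 2 = 0 := le_antisymm h5 (by positivity)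
      exact norm_eq_zero.mp (pow_eq_zero_iff (by norm_num) |>.mp this)
    rw [d1, div_eq_zero_iff] at h6
    rcases h6 with h6 | h6
    · apply hz3
      rw [Finset.mem_coe, Multiset.mem_toFinset, mem_roots hW]
      exact h6
    · exact hz.1 (pow_eq_zero_iff (by norm_num) |>.mp h6)
  exact measure_eq_zero_iff_ae_notMem.mpr h4

theorem null_iso {W : Set ℂ} (hW : IsOpen W) {f : ℂ → ℂ} (hf : DifferentiableOn ℂ f W) :
    volume {z : ℂ | z ∈ W ∧ f z = 0 ∧ ¬ ∀ᶠ w in 𝓝 z, f w = 0} = 0 := by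
  apply measure_null_of_locally_null
  rintro z ⟨hz, hfz, hne⟩
  refine ⟨{z}, ?_, by simp⟩
  have han : AnalyticAt ℂ f z := hf.analyticAt (hW.mem_nhds hz)
  rcases han.eventually_eq_zero_or_eventually_ne_zero with h | h
  · exact absurd h hne
  · rw [eventually_nhdsWithin_iff] at h
    rw [mem_nhdsWithin_iff_eventually]
    filter_upwards [h] with w hw hwD
    by_contra hwz
    exact hw hwz hwD.2.1

/-! ### the relation between the coefficients -/

theorem J_eval {d : ℕ} {M : ℕ} (hM : 1 ≤ M) {X : ℂ → CV d} {ξ : CV d} {a : ℂ → ℂ} {z v : ℂ}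
    (hX : ∀ i, J M (fun t => X t i) (X 0 i) (ξ i)) (ha : J M a z v) (i : Fin 2) :
    J M (fun t => (pol (X t) i).eval (a t)) ((pol (X 0) i).eval z)
      ((pol ξ i).eval z + (derivative (pol (X 0) i)).eval z * v) := by
  simp only [Pool.Agent.W40.RQCURVE.pe, Pool.Agent.W40.RQCURVE.pde]
  have h := J.sum (Finset.univ : Finset (Fin (d + 1)))
    (f := fun j t => X t (i, j) * a t ^ (j : ℕ)) (a := fun j => X 0 (i, j) * z ^ (j : ℕ))
    (fun j _ => (hX (i, j)).mul hM (ha.pow hM (j : ℕ)))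
  have e : ∑ j : Fin (d + 1), (ξ (i, j) * z ^ (j : ℕ) +
      X 0 (i, j) * (((j : ℕ) : ℂ) * z ^ ((j : ℕ) - 1) * v)) =
      ∑ j : Fin (d + 1), ξ (i, j) * z ^ (j : ℕ) +
        (∑ j : Fin (d + 1), X 0 (i, j) * (((j : ℕ) : ℂ) * z ^ ((j : ℕ) - 1))) * v := by
    rw [Finset.sum_add_distrib, Finset.sum_mul]
    congr 1
    refine Finset.sum_congr rfl fun j _ => ?_
    ring
  rwa [e] at h

theorem relation {d : ℕ} {M : ℕ} (hM : 1 ≤ M) {X : ℂ → CV d} {ξ : CV d} {a b : ℂ → ℂ}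
    {z v w : ℂ} (hX : ∀ i, J M (fun t => X t i) (X 0 i) (ξ i)) (ha : J M a z v)
    (hb : J M b (fx (X 0) z) w) (hz : (de (X 0)).eval z ≠ 0)
    (h : ∀ᶠ t in 𝓝[≠] (0 : ℂ), (de (X t)).eval (a t) ≠ 0 ∧ fx (X t) (a t) = b t) :
    w - d1 (nu (X 0)) (de (X 0)) z * v = et (X 0) ξ z := by
  have h0 := J_eval hM hX ha 0
  have h1 := (J_eval hM hX ha 1).mul hM hb
  have h2 : (pol (X 0) 1).eval z * fx (X 0) z = (pol (X 0) 0).eval z := by
    have hz' : (pol (X 0) 1).eval z ≠ 0 := hz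
    rw [fx, fr]
    show (pol (X 0) 1).eval z * ((pol (X 0) 0).eval z / (pol (X 0) 1).eval z) = _
    field_simp
  rw [h2] at h1
  have h3 : (fun t => (pol (X t) 1).eval (a t) * b t) =ᶠ[𝓝[≠] 0]
      fun t => (pol (X t) 0).eval (a t) := by
    filter_upwards [h] with t ht
    have hz' : (pol (X t) 1).eval (a t) ≠ 0 := ht.1
    rw [← ht.2, fx, fr]
    show (pol (X t) 1).eval (a t) * ((pol (X t) 0).eval (a t) / (pol (X t) 1).eval (a t)) = _
    field_simp
  have h4 := (h1.congr h3).unique h0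
  rw [et, d1, wn, eval_sub, eval_mul, eval_mul]
  simp only [nu, de, fx, fr] at h4 hz ⊢
  field_simp at h4 ⊢
  linear_combination h4

theorem rt_eq {d : ℕ} (x : CV d) (z : ℂ) : rt x 1 z = fx x z := by
  rw [rt, fx, fr, nu, de, Pool.Agent.W40.RQCURVE.pe, Pool.Agent.W40.RQCURVE.pe]
  simp [hF]

theorem hF_snd {d : ℕ} (x : CV d) (z : ℂ) : (hF x (z, 1)).2 = (de x).eval z := by
  rw [de, Pool.Agent.W40.RQCURVE.pe]
  simp [hF]

end Pool.Agent.W366.REDI
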