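import Mathlib
import Pool.Agent.W757.RD.StG
import Pool.Agent.W366.REDIaux

/-! RE-DI: the disc inequality. -/

set_option autoImplicit false

open Topology Filter Metric Set MeasureTheory Polynomial
open Pool.Agent.H790R3.RB (CV hF cr ND wr rt Ix yx yc sp HypTop pol)
open Pool.Agent.W757.QR (nu de fx fr d1 d2 wn RM pre)

namespace Pool.Agent.W366.REDI

open Pool.Agent.W757.RD

theorem task (hUG : StUG) (hGAIN : StGAIN) (hMS : StMS) (hAU : StAU) (hCNJ : StCNJ)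
    (hFWD : StFWD) (hMU : StMU) (_hLAM : StLAM) : StDI := by
  classical
  intro β d x₀ hβ1 hβ2 hd hND hNrm hGz
  obtain ⟨c', ε₀, σ, hc', hε₀, hσ, hUG'⟩ := hUG β d x₀ hβ1 hβ2 hd hND hNrm hGz
  refine ⟨c' / (4 * (d + 1)), ε₀, σ, by positivity, hε₀, hσ, ?_⟩
  intro n s S hSN KK r N ω Nt r₁ r₂ τ x κ Sx hD hr₁ hr₁₂ hbase hxσ hAN hnc
  obtain ⟨hfinμ, hac⟩ := hMU β hβ1 hβ2
  have : IsFiniteMeasure (mu β) := ⟨hfinμ⟩
  obtain ⟨W, Φ, hMo⟩ := hMS d n s S KK r N ω Nt r₂ τ x κ Sx hD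
  have hAUt := hAU d n s S KK r N ω Nt r₂ τ x κ Sx hD
  obtain ⟨hcnj, hfix⟩ := hCNJ d n s S KK r N ω Nt r₂ τ x κ Sx W Φ hD hMo
  have hdsc := hD.dsc
  have hτ := hdsc.hτ
  have h0τ : (0 : ℂ) ∈ ball (0 : ℂ) τ := mem_ball_self hτ
  obtain ⟨hu0, hfin0, hcl0⟩ := hAUt 0 h0τ
  set E : Set ℂ := {ζ : ℂ | ∃ k, ∃ l < S.per k, ∃ w : ℂ, ‖w‖ < r₂ ∧ (w = 0 ∨ w ∈ Sx k l) ∧
        Ad S ω Nt x κ 0 k l w ζ} with hE
  set Wn : ℂ → Set ℂ := fun t => S.WN ω Nt r₁ (x t) (fun k => κ k t) with hWn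
  have hWnc : ∀ t ∈ ball (0 : ℂ) τ, IsClosed (Wn t) := fun t ht => (hAUt t ht).2.2 r₁ hr₁ hr₁₂
  -- coefficients
  set X : ℂ → CV d := fun t => S.co (x t) with hX
  have hXd : DifferentiableOn ℂ X (ball 0 τ) :=
    S.hco.comp hdsc.xd (fun t ht => hD.lin.NU (hdsc.xN t ht))
  have hXid : ∀ i, DifferentiableOn ℂ (fun t => X t i) (ball 0 τ) :=
    fun i => differentiableOn_pi.mp hXd i
  have hXan : ∀ i, AnalyticAt ℂ (fun t => X t i) 0 :=
    fun i => (hXid i).analyticAt (isOpen_ball.mem_nhds h0τ)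
  have hx0N : x 0 ∈ N := hdsc.xN 0 h0τ
  have hx0U : x 0 ∈ S.U := hD.lin.NU hx0N
  have hXND : ND (X 0) := S.nd _ hx0U
  have hXN : Nrm (X 0) := hSN _ hx0U
  -- the set K
  set K : Set ℂ := Wn 0 \ E with hK
  have hKm : MeasurableSet K := (hWnc 0 h0τ).measurableSet.diff hfin0.measurableSet
  have hKW : K ⊆ W := by
    rintro z ⟨⟨k, l, hl, w, hw, hcr⟩, hzE⟩
    by_cases hw0 : w = 0 ∨ w ∈ Sx k l
    · exact absurd ⟨k, l, hl, w, lt_of_le_of_lt hw hr₁₂, hw0, hcr⟩ hzE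
    · push Not at hw0
      exact (hMo.mem z).mpr ⟨k, l, hl, w, hw0.1, lt_of_le_of_lt hw hr₁₂, hw0.2, hcr⟩
  have hstay : ∀ z ∈ K, ∀ t ∈ ball (0 : ℂ) τ, Φ t z ∈ Wn t := by
    rintro z ⟨⟨k, l, hl, w, hw, hcr⟩, hzE⟩ t ht
    by_cases hw0 : w = 0 ∨ w ∈ Sx k l
    · exact absurd ⟨k, l, hl, w, lt_of_le_of_lt hw hr₁₂, hw0, hcr⟩ hzE
    · push Not at hw0
      exact ⟨k, l, hl, w, hw,
        hMo.ad k l hl w hw0.1 (lt_of_le_of_lt hw hr₁₂) hw0.2 z hcr t ht⟩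
  have hvd : ∀ k, DifferentiableOn ℂ (cf Φ k) W := cf_diff hτ hMo.Wo hMo.Φd
  -- the order of contact
  have hexM : ∃ M, 1 ≤ M ∧ ((∃ i, tc (fun t => X t i) M ≠ 0) ∨
      mu β {z | z ∈ K ∧ cf Φ M z ≠ 0} ≠ 0) := by
    obtain ⟨t₁, ht₁, hne⟩ := hnc
    by_contra hcon
    push Not at hcon
    apply hne
    funext i
    have hs := Complex.hasSum_taylorSeries_on_ball (hXid i) ht₁
    have h1 : ∀ k, k ≠ 0 → ((Nat.factorial k : ℂ))⁻¹ • (t₁ - 0) ^ k •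
        iteratedDeriv k (fun t => X t i) 0 = 0 := by
      intro k hk
      have h3 := (hcon k (by omega)).1 i
      rw [tc, mul_eq_zero] at h3
      rcases h3 with h3 | h3
      · exact absurd h3 (inv_ne_zero (Nat.cast_ne_zero.mpr (Nat.factorial_ne_zero k)))
      · rw [h3, smul_zero, smul_zero]
    have h2 := hs.unique (hasSum_single 0 h1)
    simpa using h2
  obtain ⟨M, ⟨hM1, hMne⟩, hMmin⟩ : ∃ M, (1 ≤ M ∧ ((∃ i, tc (fun t => X t i) M ≠ 0) ∨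
      mu β {z | z ∈ K ∧ cf Φ M z ≠ 0} ≠ 0)) ∧ ∀ k, k < M → ¬ (1 ≤ k ∧
      ((∃ i, tc (fun t => X t i) k ≠ 0) ∨ mu β {z | z ∈ K ∧ cf Φ k z ≠ 0} ≠ 0)) :=
    ⟨Nat.find hexM, Nat.find_spec hexM, fun k hk => Nat.find_min hexM hk⟩
  have hX0 : ∀ i, ∀ k, 1 ≤ k → k < M → tc (fun t => X t i) k = 0 := by
    intro i k hk1 hkM
    by_contra hne
    exact hMmin k hkM ⟨hk1, Or.inl ⟨i, hne⟩⟩
  have hv0 : ∀ k, 1 ≤ k → k < M → mu β {z | z ∈ K ∧ cf Φ k z ≠ 0} = 0 := by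
    intro k hk1 hkM
    by_contra hne
    exact hMmin k hkM ⟨hk1, Or.inr hne⟩
  -- the open set `W0`
  set W0 : Set ℂ := W ∩ ⋂ k ∈ Finset.Ico 1 M, {z | ∀ᶠ w in 𝓝 z, cf Φ k w = 0} with hW0
  have hW0o : IsOpen W0 :=
    hMo.Wo.inter (isOpen_biInter_finset fun k _ => isOpen_setOfPred_eventually_nhds)
  have hW0v : ∀ z ∈ W0, ∀ k, 1 ≤ k → k < M → cf Φ k z = 0 := by
    intro z hz k hk1 hkM
    have h1 := hz.2
    rw [mem_iInter₂] at h1
    have h2 : ∀ᶠ w in 𝓝 z, cf Φ k w = 0 := h1 k (Finset.mem_Ico.mpr ⟨hk1, hkM⟩)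
    exact h2.self_of_nhds
  have hKW0 : mu β (K \ W0) = 0 := by
    have hsub : K \ W0 ⊆ ⋃ k ∈ Finset.Ico 1 M, ({z | z ∈ K ∧ cf Φ k z ≠ 0} ∪
        {z : ℂ | z ∈ W ∧ cf Φ k z = 0 ∧ ¬ ∀ᶠ w in 𝓝 z, cf Φ k w = 0}) := by
      rintro z ⟨hzK, hzW0⟩
      by_contra hcon
      apply hzW0
      refine ⟨hKW hzK, ?_⟩
      rw [mem_iInter₂]
      intro k hk
      by_contra hne
      apply hcon
      rw [mem_iUnion₂]
      refine ⟨k, hk, ?_⟩
      by_cases h0 : cf Φ k z = 0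
      · exact Or.inr ⟨hKW hzK, h0, hne⟩
      · exact Or.inl ⟨hzK, h0⟩
    refine measure_mono_null hsub ?_
    refine measure_iUnion_null fun k => measure_iUnion_null fun hk => ?_
    have hk' := Finset.mem_Ico.mp hk
    rw [measure_union_null_iff]
    exact ⟨hv0 k hk'.1 hk'.2, (hac _).mp (null_iso hMo.Wo (hvd k))⟩
  set K0 : Set ℂ := K ∩ W0 with hK0
  have hK0m : MeasurableSet K0 := hKm.inter hW0o.measurableSet
  have hZ : mu β (E ∪ (K \ W0)) = 0 := by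
    rw [measure_union_null_iff]
    exact ⟨(hac _).mp (hfin0.measure_zero _), hKW0⟩
  have hdiff : Wn 0 \ K0 ⊆ E ∪ (K \ W0) := by
    rintro z ⟨hz1, hz2⟩
    by_cases hzE : z ∈ E
    · exact Or.inl hzE
    · refine Or.inr ⟨⟨hz1, hzE⟩, fun hzW => hz2 ⟨⟨hz1, hzE⟩, hzW⟩⟩
  have hμK0 : mu β K0 = mu β (Wn 0) :=
    measure_eq_measure_of_null_sdiff (fun z hz => hz.1.1) (measure_mono_null hdiff hZ)
  have hμK0c : mu β K0ᶜ = mu β (Wn 0)ᶜ := by
    refine (measure_eq_measure_of_null_sdiff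
      (compl_subset_compl.mpr fun z hz => hz.1.1) ?_).symm
    refine measure_mono_null ?_ hZ
    rintro z ⟨hz1, hz2⟩
    rw [mem_compl_iff, not_not] at hz2
    exact hdiff ⟨hz2, hz1⟩
  set A : ℝ := S.AN β ω Nt r₁ (x 0) (fun k => κ k 0) with hA
  have hA0 : 0 ≤ A := ENNReal.toReal_nonneg
  have hμA : mu β (Wn 0)ᶜ = ENNReal.ofReal A :=
    (ENNReal.ofReal_toReal (measure_ne_top _ _)).symm
  -- invariance
  have hfwd : ∀ z ∈ Wn 0, (de (X 0)).eval z ≠ 0 ∧ fx (X 0) z ∈ Wn 0 := by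
    intro z hz
    obtain ⟨h1, h2, -⟩ := hFWD d n s S KK r N ω Nt r₁ (x 0) (fun k => κ k 0) hD.koe hD.lin hx0N
      hr₁ (fun k => lt_of_le_of_lt (mul_le_mul_of_nonneg_left hr₁₂.le (norm_nonneg _))
        (hdsc.κr k 0 h0τ)) z hz
    rw [Sys.F, hF_snd] at h1
    rw [rt_eq] at h2
    exact ⟨h1, h2⟩
  have hinv : ∀ᵐ z : ℂ, z ∈ K0 → fx (X 0) z ∈ K0 := by
    have h1 := null_pre hd hXND ((hac _).mpr hZ)
    rw [measure_eq_zero_iff_ae_notMem] at h1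
    filter_upwards [h1] with z hz hzK
    obtain ⟨h2, h3⟩ := hfwd z hzK.1.1
    have h4 : fx (X 0) z ∉ E ∪ (K \ W0) := fun h => hz ⟨h2, h⟩
    have h5 : fx (X 0) z ∉ E := fun h => h4 (Or.inl h)
    have h6 : fx (X 0) z ∈ K := ⟨h3, h5⟩
    refine ⟨h6, ?_⟩
    by_contra h7
    exact h4 (Or.inr ⟨h6, h7⟩)
  -- the relation
  set ξ : CV d := fun i => tc (fun t => X t i) M with hξ
  have hJX : ∀ i, J M (fun t => X t i) (X 0 i) (ξ i) := fun i =>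
    J.of_taylor (hXan i) hM1 (hX0 i)
  have hJΦ : ∀ z ∈ W0, J M (fun t => Φ t z) z (cf Φ M z) := by
    intro z hz
    have h1 := J.of_taylor (f := fun t => Φ t z)
      ((Phi_an hMo.Φd hz.1).analyticAt (isOpen_ball.mem_nhds h0τ)) hM1 (hW0v z hz)
    have h2 : Φ 0 z = z := hMo.Φ0 z hz.1
    simp only [h2] at h1
    exact h1
  have hrel : ∀ z ∈ W0, (de (X 0)).eval z ≠ 0 → fx (X 0) z ∈ W0 →
      cf Φ M (fx (X 0) z) - d1 (nu (X 0)) (de (X 0)) z * cf Φ M z = et (X 0) ξ z := by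
    intro z hz hde hfz
    refine relation hM1 hJX (hJΦ z hz) (hJΦ _ hfz) hde ?_
    have h1 : ∀ᶠ t in 𝓝[≠] (0 : ℂ), t ∈ ball (0 : ℂ) τ :=
      mem_nhdsWithin_of_mem_nhds (isOpen_ball.mem_nhds h0τ)
    filter_upwards [h1] with t ht
    have h2 := (hcnj z hz.1).2
    rw [rt_eq] at h2
    obtain ⟨h3, h4⟩ := h2 hfz.1 t ht
    rw [Sys.F, hF_snd] at h3
    rw [rt_eq] at h4
    exact ⟨h3, h4⟩
  have hξ0 : ∀ (i : Fin 2 × Fin (d + 1)) (a : ℂ), (∀ t ∈ ball (0 : ℂ) τ, X t i = a) → ξ i = 0 := by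
    intro i a ha
    have h1 : J M (fun t => X t i) (X 0 i) 0 := by
      rw [ha 0 h0τ]
      refine (J.const M a).congr ?_
      have h1 : ∀ᶠ t in 𝓝[≠] (0 : ℂ), t ∈ ball (0 : ℂ) τ :=
        mem_nhdsWithin_of_mem_nhds (isOpen_ball.mem_nhds h0τ)
      filter_upwards [h1] with t ht
      exact (ha t ht).symm
    exact (hJX i).unique h1
  have hξ1 : ξ (0, Fin.last d) = 0 :=
    hξ0 _ 1 fun t ht => (hSN _ (hD.lin.NU (hdsc.xN t ht))).1
  have hξ2 : ξ (1, Fin.last d) = 0 :=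
    hξ0 _ 0 fun t ht => (hSN _ (hD.lin.NU (hdsc.xN t ht))).2
  have hK0ε : mu β K0ᶜ ≤ ENNReal.ofReal ε₀ := by
    rw [hμK0c, hμA]
    exact ENNReal.ofReal_le_ofReal hAN
  obtain ⟨hI1, hI2⟩ := hUG' (X 0) ξ hxσ hXN hξ1 hξ2 W0 K0 (cf Φ M) hW0o hK0m
    inter_subset_right hK0ε ((hvd M).mono inter_subset_left) hinv hrel
  set I : ENNReal := ∫⁻ z in K0, ENNReal.ofReal (‖Dv β (cf Φ M) z‖ ^ 2) ∂mu β with hI
  have hIpos : ENNReal.ofReal (c' / 2 * (‖ξ‖ + 0) ^ 2) < I := by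
    rw [add_zero]
    by_cases hξz : ξ = 0
    · have hIne : I ≠ 0 := by
        intro hI0
        have h1 := hI2 hI0
        rcases hMne with ⟨i, hi⟩ | hMne
        · exact hi (congrFun hξz i)
        · apply hMne
          rw [ae_iff] at h1
          have h2 := (hac _).mp h1
          refine measure_mono_null ?_ (measure_union_null h2 hKW0)
          rintro z ⟨hzK, hzv⟩
          by_cases hzW : z ∈ W0
          · exact Or.inl fun hcon => hzv (hcon ⟨hzK, hzW⟩)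
          · exact Or.inr ⟨hzK, hzW⟩
      rw [hξz]
      simp only [norm_zero, ne_eq, OfNat.ofNat_ne_zero, not_false_eq_true, zero_pow, mul_zero,
        ENNReal.ofReal_zero]
      exact pos_iff_ne_zero.mpr hIne
    · refine lt_of_lt_of_le ?_ hI1
      have h1 : 0 < ‖ξ‖ := norm_pos_iff.mpr hξz
      have h2 : 0 < c' * ‖ξ‖ ^ 2 := by positivity
      rw [ENNReal.ofReal_lt_ofReal_iff h2]
      linarith
  -- choice of `δ` and `ρ₁`
  obtain ⟨δ, hδ, hIδ⟩ : ∃ δ : ℝ, 0 < δ ∧ ENNReal.ofReal (c' / 2 * (‖ξ‖ + δ) ^ 2) < I := by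
    have hcont : Continuous fun δ : ℝ => ENNReal.ofReal (c' / 2 * (‖ξ‖ + δ) ^ 2) :=
      ENNReal.continuous_ofReal.comp (by fun_prop)
    have h1 := (hcont.tendsto 0).eventually_lt_const hIpos
    obtain ⟨e, he, h2⟩ := Metric.eventually_nhds_iff.mp h1
    refine ⟨e / 2, by positivity, h2 ?_⟩
    rw [dist_zero_right, Real.norm_eq_abs, abs_of_pos (by positivity)]
    linarith
  set c2 : ℝ := c' / 2 * (‖ξ‖ + δ) ^ 2 with hc2
  have hc20 : 0 ≤ c2 := by positivity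
  have hev : ∀ᶠ t in 𝓝[≠] (0 : ℂ), ∀ i, ‖(X t i - X 0 i) / t ^ M‖ < ‖ξ‖ + δ := by
    rw [eventually_all]
    intro i
    refine (hJX i).norm.eventually_lt_const ?_
    have := norm_le_pi_norm ξ i
    linarith
  rw [eventually_nhdsWithin_iff] at hev
  obtain ⟨e, he, hev'⟩ := Metric.eventually_nhds_iff.mp hev
  refine ⟨min e τ, lt_min he hτ, min_le_right _ _, ?_⟩
  intro ρ hρ hρe q hq hqb
  have hρ1 : ρ < e := lt_of_lt_of_le hρe (min_le_left _ _)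
  have hρ2 : ρ < τ := lt_of_lt_of_le hρe (min_le_right _ _)
  have hcn : ∀ θ : ℝ, ‖circleMap 0 ρ θ‖ = ρ := fun θ => by
    rw [norm_circleMap_zero, abs_of_pos hρ]
  have hcm : ∀ θ : ℝ, circleMap 0 ρ θ ∈ ball (0 : ℂ) τ := by
    intro θ
    rw [mem_ball, dist_zero_right, hcn]
    exact hρ2
  have hXb : ∀ (θ : ℝ) i, ‖X (circleMap 0 ρ θ) i - X 0 i‖ ≤ (‖ξ‖ + δ) * ρ ^ M := by
    intro θ i
    have h0 : circleMap 0 ρ θ ≠ 0 := by
      rw [← norm_pos_iff, hcn]; exact hρ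
    have h1 := hev' (y := circleMap 0 ρ θ) (by rw [dist_zero_right, hcn]; exact hρ1) h0 i
    rw [norm_div, norm_pow, hcn, div_lt_iff₀ (by positivity)] at h1
    exact h1.le
  have hqμ : ∀ θ : ℝ, ENNReal.ofReal (q θ) + mu β (Φ (circleMap 0 ρ θ) '' K0) ≤ mu β univ := by
    intro θ
    have h1 : Φ (circleMap 0 ρ θ) '' K0 ⊆ Wn (circleMap 0 ρ θ) := by
      rintro _ ⟨z, hz, rfl⟩
      exact hstay z hz.1 _ (hcm θ)
    have h2 : ENNReal.ofReal (q θ) ≤ mu β (Wn (circleMap 0 ρ θ))ᶜ := by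
      refine (ENNReal.ofReal_le_ofReal (hqb θ).2).trans ?_
      exact (ENNReal.ofReal_toReal (measure_ne_top _ _)).le
    calc ENNReal.ofReal (q θ) + mu β (Φ (circleMap 0 ρ θ) '' K0)
        ≤ mu β (Wn (circleMap 0 ρ θ))ᶜ + mu β (Wn (circleMap 0 ρ θ)) :=
          add_le_add h2 (measure_mono h1)
      _ = mu β univ := by
          rw [add_comm, measure_add_measure_compl (hWnc _ (hcm θ)).measurableSet]
  have hbz0 : bz 0 = 0 := by simp [bz]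
  have hbz1 : bz 1 = 1 := by simp [bz]
  have hG := hGAIN β τ ρ M W0 K0 Φ q hβ1 hβ2 hρ hρ2 hM1 hW0o hK0m inter_subset_right
    (hMo.Φd.mono (prod_mono subset_rfl inter_subset_left)) (fun z hz => hMo.Φ0 z hz.1)
    (fun t ht => (hMo.Φi t ht).mono inter_subset_left)
    (fun t ht z hz hz0 hz1 => ⟨by
      have h1 := hfix (bz 0) (hbase 0)
      rw [hbz0] at h1
      exact h1 z hz.1 hz0 t ht, by
      have h1 := hfix (bz 1) (hbase 1)
      rw [hbz1] at h1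
      exact h1 z hz.1 hz1 t ht⟩) hW0v hq (fun θ => (hqb θ).1) hqμ
  set Q : ℝ := ∫ θ in (0 : ℝ)..(2 * Real.pi), q θ with hQ
  have hQ0 : 0 ≤ Q := intervalIntegral.integral_nonneg Real.two_pi_pos.le
    (fun θ _ => (hqb θ).1)
  have hI' : ∫⁻ z in K0, ENNReal.ofReal (ρ ^ (2 * M) * ‖Dv β (cf Φ M) z‖ ^ 2) ∂mu β =
      ENNReal.ofReal (ρ ^ (2 * M)) * I := by
    rw [hI, ← lintegral_const_mul' _ _ ENNReal.ofReal_ne_top]
    refine lintegral_congr fun z => ?_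
    rw [ENNReal.ofReal_mul (by positivity)]
  rw [hI'] at hG
  set m : ℝ := (mu β K0).toReal with hm
  have hm0 : 0 ≤ m := ENNReal.toReal_nonneg
  have hmK : mu β K0 = ENNReal.ofReal m := (ENNReal.ofReal_toReal (measure_ne_top _ _)).symm
  have huniv : mu β univ = ENNReal.ofReal m + ENNReal.ofReal A := by
    rw [← measure_add_measure_compl (μ := mu β) (hWnc 0 h0τ).measurableSet, ← hμK0, hmK, hμA]
  have hpi : 0 < Real.pi := Real.pi_pos
  have hreal : Q + 2 * Real.pi * (m + ρ ^ (2 * M) * c2) ≤ 2 * Real.pi * (m + A) := by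
    have h1 : ENNReal.ofReal (Q + 2 * Real.pi * (m + ρ ^ (2 * M) * c2)) ≤
        ENNReal.ofReal (2 * Real.pi * (m + A)) := by
      rw [ENNReal.ofReal_add hQ0 (by positivity),
        ENNReal.ofReal_mul (p := 2 * Real.pi) (q := m + ρ ^ (2 * M) * c2) (by positivity),
        ENNReal.ofReal_mul (p := 2 * Real.pi) (q := m + A) (by positivity),
        ENNReal.ofReal_add hm0 (by positivity),
        ENNReal.ofReal_add hm0 hA0, ENNReal.ofReal_mul (p := ρ ^ (2 * M)) (by positivity), ← hmK]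
      rw [huniv, ← hmK] at hG
      refine le_trans ?_ hG
      gcongr
    exact (ENNReal.ofReal_le_ofReal_iff (by positivity)).mp h1
  -- the oscillation of the coefficients
  have hXc : ∀ i, Continuous fun θ : ℝ => X (circleMap 0 ρ θ) i := fun i =>
    (hXid i).continuousOn.comp_continuous (continuous_circleMap 0 ρ) hcm
  have hsc : Continuous fun θ : ℝ => c' / (4 * ((d : ℝ) + 1)) * ∑ i : Fin 2 × Fin (d + 1),
      ‖X (circleMap 0 ρ θ) i - X 0 i‖ ^ 2 := by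
    refine continuous_const.mul (continuous_finsetSum _ fun i _ => ?_)
    exact (((hXc i).sub continuous_const).norm).pow 2
  rw [intervalIntegral.integral_add (hq.intervalIntegrable _ _) (hsc.intervalIntegrable _ _)]
  have hosc : ∫ θ in (0 : ℝ)..(2 * Real.pi), c' / (4 * ((d : ℝ) + 1)) *
      ∑ i : Fin 2 × Fin (d + 1), ‖X (circleMap 0 ρ θ) i - X 0 i‖ ^ 2 ≤
      2 * Real.pi * (ρ ^ (2 * M) * c2) := by
    have h1 : ∫ θ in (0 : ℝ)..(2 * Real.pi), c' / (4 * ((d : ℝ) + 1)) *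
      ∑ i : Fin 2 × Fin (d + 1), ‖X (circleMap 0 ρ θ) i - X 0 i‖ ^ 2 ≤
      ∫ θ in (0 : ℝ)..(2 * Real.pi), ρ ^ (2 * M) * c2 := by
      refine intervalIntegral.integral_mono_on Real.two_pi_pos.le (hsc.intervalIntegrable _ _)
        intervalIntegrable_const ?_
      intro θ _
      have h2 : ∑ i : Fin 2 × Fin (d + 1), ‖X (circleMap 0 ρ θ) i - X 0 i‖ ^ 2 ≤
          ∑ i : Fin 2 × Fin (d + 1), ((‖ξ‖ + δ) * ρ ^ M) ^ 2 :=
        Finset.sum_le_sum fun i _ => pow_le_pow_left₀ (norm_nonneg _) (hXb θ i) 2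
      have h3 : ∑ i : Fin 2 × Fin (d + 1), ((‖ξ‖ + δ) * ρ ^ M) ^ 2 =
          2 * ((d : ℝ) + 1) * ((‖ξ‖ + δ) * ρ ^ M) ^ 2 := by
        rw [Finset.sum_const, Finset.card_univ, Fintype.card_prod, Fintype.card_fin,
          Fintype.card_fin, nsmul_eq_mul]
        push_cast
        ring
      rw [h3] at h2
      calc c' / (4 * ((d : ℝ) + 1)) * ∑ i : Fin 2 × Fin (d + 1),
            ‖X (circleMap 0 ρ θ) i - X 0 i‖ ^ 2
          ≤ c' / (4 * ((d : ℝ) + 1)) * (2 * ((d : ℝ) + 1) * ((‖ξ‖ + δ) * ρ ^ M) ^ 2) :=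
            mul_le_mul_of_nonneg_left h2 (by positivity)
        _ = ρ ^ (2 * M) * c2 := by
            rw [hc2]
            have : (d : ℝ) + 1 ≠ 0 := by positivity
            field_simp
            ring
    refine h1.trans (le_of_eq ?_)
    rw [intervalIntegral.integral_const, smul_eq_mul, sub_zero]
  linarith

end Pool.Agent.W366.REDI
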