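import Mathlib
import Pool.Agent.W757.RD.St
import Pool.Agent.H790R3.RB.Basic

/-! RE-USC: upper semicontinuity of the area of the non-attracted set (finite cone metric). -/

set_option autoImplicit false

open Topology Filter Metric Set MeasureTheory

open Pool.Agent.H790R3.RB (CV hF cr ND wr rt Ix yx yc sp HypTop hF_iter_continuous)

namespace Pool.Agent.W366.REUSC

open Pool.Agent.W757.RD

namespace USC

variable {d n s : ℕ} (S : Sys d n s)

theorem inC_iff (k : Fin s) (x : Fin n → ℂ) (p : ℂ × ℂ) :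
    S.InC k x p ↔ p.2 ≠ 0 ∧ ‖p.1 / p.2 - S.b k x‖ < (S.r₀ k) := by
  constructor
  · rintro ⟨a, z, ha, hz, rfl⟩
    simp only [Sys.cht, Prod.smul_fst, Prod.smul_snd, smul_eq_mul, mul_one]
    refine ⟨ha, ?_⟩
    rw [mul_div_cancel_left₀ _ ha]
    simpa using hz
  · rintro ⟨h1, h2⟩
    refine ⟨p.2, p.1 / p.2 - S.b k x, h1, h2, ?_⟩
    simp only [Sys.cht]
    ext
    · simp only [Prod.smul_fst, smul_eq_mul]
      field_simp
      ring
    · simp

theorem isOpen_inC (k : Fin s) :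
    IsOpen {q : (Fin n → ℂ) × (ℂ × ℂ) | q.1 ∈ S.U ∧ S.InC k q.1 q.2} := by
  have hU : IsOpen {q : (Fin n → ℂ) × (ℂ × ℂ) | q.1 ∈ S.U} := S.hU.preimage continuous_fst
  have hO : IsOpen {q : (Fin n → ℂ) × (ℂ × ℂ) | q.1 ∈ S.U ∧ q.2.2 ≠ 0} :=
    hU.inter (isOpen_ne.preimage (continuous_snd.comp continuous_snd))
  have hf : ContinuousOn (fun q : (Fin n → ℂ) × (ℂ × ℂ) => ‖q.2.1 / q.2.2 - S.b k q.1‖)
      {q : (Fin n → ℂ) × (ℂ × ℂ) | q.1 ∈ S.U ∧ q.2.2 ≠ 0} := by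
    apply ContinuousOn.norm
    apply ContinuousOn.sub
    · apply ContinuousOn.div
      · exact (continuous_fst.comp continuous_snd).continuousOn
      · exact (continuous_snd.comp continuous_snd).continuousOn
      · intro q hq; exact hq.2
    · exact (S.hb k).continuousOn.comp continuous_fst.continuousOn (fun q hq => hq.1)
  have h := hf.isOpen_inter_preimage hO (isOpen_Iio (a := (S.r₀ k)))
  have e : {q : (Fin n → ℂ) × (ℂ × ℂ) | q.1 ∈ S.U ∧ S.InC k q.1 q.2} =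
      {q : (Fin n → ℂ) × (ℂ × ℂ) | q.1 ∈ S.U ∧ q.2.2 ≠ 0} ∩
        (fun q : (Fin n → ℂ) × (ℂ × ℂ) => ‖q.2.1 / q.2.2 - S.b k q.1‖) ⁻¹' Iio (S.r₀ k) := by
    ext q
    simp only [mem_setOf_eq, mem_inter_iff, mem_preimage, mem_Iio, inC_iff]
    tauto
  rw [e]
  exact h

/-- the open set of pairs which are in one of the cones before time `N` -/
def W (N : ℕ) : Set ((Fin n → ℂ) × ℂ) :=
  {q | q.1 ∈ S.U ∧ ∃ k, ∃ m ≤ N, S.InC k q.1 ((S.F q.1)^[m] (q.2, 1))}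

theorem isOpen_W (N : ℕ) : IsOpen (W S N) := by
  have h1 : W S N = ⋃ k : Fin s, ⋃ m : ℕ, ⋃ (_ : m ≤ N),
      {q : (Fin n → ℂ) × ℂ | q.1 ∈ S.U ∧ S.InC k q.1 ((S.F q.1)^[m] (q.2, 1))} := by
    ext q
    simp only [W, mem_setOf_eq, mem_iUnion, exists_prop]
    constructor
    · rintro ⟨h, k, m, hm, h2⟩; exact ⟨k, m, hm, h, h2⟩
    · rintro ⟨k, m, hm, h, h2⟩; exact ⟨h, k, m, hm, h2⟩
  rw [h1]
  refine isOpen_iUnion fun k => isOpen_iUnion fun m => isOpen_iUnion fun _ => ?_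
  have hU : IsOpen {q : (Fin n → ℂ) × ℂ | q.1 ∈ S.U} := S.hU.preimage continuous_fst
  have hf : ContinuousOn (fun q : (Fin n → ℂ) × ℂ => (q.1, (S.F q.1)^[m] (q.2, 1)))
      {q : (Fin n → ℂ) × ℂ | q.1 ∈ S.U} := by
    apply ContinuousOn.prodMk continuous_fst.continuousOn
    have hco : ContinuousOn (fun q : (Fin n → ℂ) × ℂ => (S.co q.1, ((q.2, 1) : ℂ × ℂ)))
        {q : (Fin n → ℂ) × ℂ | q.1 ∈ S.U} :=
      ContinuousOn.prodMk
        (S.hco.continuousOn.comp continuous_fst.continuousOn (fun q hq => hq))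
        (continuous_snd.prodMk continuous_const).continuousOn
    have h2 := (hF_iter_continuous d m).comp_continuousOn hco
    have e : ((fun q : CV d × (ℂ × ℂ) => (hF q.1)^[m] q.2) ∘
        (fun q : (Fin n → ℂ) × ℂ => (S.co q.1, ((q.2, 1) : ℂ × ℂ)))) =
        (fun q : (Fin n → ℂ) × ℂ => (S.F q.1)^[m] (q.2, 1)) := by
      funext q
      simp only [Function.comp_apply, Sys.F]
    rw [← e]
    exact h2
  have h := hf.isOpen_inter_preimage hU (isOpen_inC S k)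
  have e : {q : (Fin n → ℂ) × ℂ | q.1 ∈ S.U ∧ S.InC k q.1 ((S.F q.1)^[m] (q.2, 1))} =
      {q : (Fin n → ℂ) × ℂ | q.1 ∈ S.U} ∩
        (fun q : (Fin n → ℂ) × ℂ => (q.1, (S.F q.1)^[m] (q.2, 1))) ⁻¹'
          {q : (Fin n → ℂ) × (ℂ × ℂ) | q.1 ∈ S.U ∧ S.InC k q.1 q.2} := by
    ext q
    simp only [mem_setOf_eq, mem_inter_iff, mem_preimage]
    tauto
  rw [e]
  exact h

end USC

theorem task (hMU : StMU) : StUSC := by
  intro β d n s S x₁ hβ1 hβ2 hxT η hη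
  have hfinμ : mu β univ < ⊤ := (hMU β hβ1 hβ2).1
  haveI : IsFiniteMeasure (mu β) := ⟨hfinμ⟩
  obtain ⟨L, hL⟩ : ∃ L : ℕ → Set ℂ, ∀ N ζ, ζ ∈ L N ↔
      ∀ k, ∀ m ≤ N, ¬ S.InC k x₁ ((S.F x₁)^[m] (ζ, 1)) :=
    ⟨fun N => {ζ | ∀ k, ∀ m ≤ N, ¬ S.InC k x₁ ((S.F x₁)^[m] (ζ, 1))}, fun N ζ => Iff.rfl⟩
  have hmem : ∀ N ζ, ζ ∈ L N ↔ (x₁, ζ) ∉ USC.W S N := by
    intro N ζ
    rw [hL]
    simp only [USC.W, mem_setOf_eq, hxT, true_and]
    push Not
    rfl
  have hLc : ∀ N, IsClosed (L N) := by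
    intro N
    have : L N = ((fun ζ : ℂ => (x₁, ζ)) ⁻¹' (USC.W S N))ᶜ := by
      ext ζ
      rw [hmem]
      rfl
    rw [this]
    exact ((USC.isOpen_W S N).preimage (by fun_prop)).isClosed_compl
  have hLanti : Antitone L := fun N M hNM ζ hζ =>
    (hL N ζ).mpr fun k m hm => (hL M ζ).mp hζ k m (hm.trans hNM)
  have hLinf : ⋂ N, L N ⊆ S.KS x₁ := by
    intro ζ hζ k m
    rw [mem_iInter] at hζ
    exact (hL m ζ).mp (hζ m) k m le_rfl
  have hvol : Tendsto (fun N => mu β (L N)) atTop (𝓝 (mu β (⋂ N, L N))) :=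
    tendsto_measure_iInter_atTop (fun N => (hLc N).measurableSet.nullMeasurableSet)
      hLanti ⟨0, (measure_lt_top _ _).ne⟩
  have hη' : mu β (⋂ N, L N) < mu β (S.KS x₁) + ENNReal.ofReal η := by
    have h1 : mu β (⋂ N, L N) < mu β (⋂ N, L N) + ENNReal.ofReal η :=
      ENNReal.lt_add_right (measure_lt_top _ _).ne (ENNReal.ofReal_pos.mpr hη).ne'
    exact h1.trans_le (by gcongr)
  obtain ⟨N, hN⟩ := ((tendsto_order.mp hvol).2 _ hη').exists
  set c := mu β (S.KS x₁) + ENNReal.ofReal η with hc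
  by_cases hca : mu β univ ≤ c
  · exact ⟨1, 0, one_pos, fun x _ _ => (measure_mono (subset_univ _)).trans hca⟩
  push Not at hca
  have hUo : IsOpen (L N)ᶜ := (hLc N).isOpen_compl
  have hsum : mu β (L N) + mu β (L N)ᶜ = mu β univ := measure_add_measure_compl
    (hLc N).measurableSet
  have hr : mu β univ - c < mu β (L N)ᶜ := by
    refine ENNReal.sub_lt_of_lt_add hca.le ?_
    rw [← hsum, add_comm]
    exact ENNReal.add_lt_add_left (measure_lt_top _ _).ne hN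
  obtain ⟨C₀, hC₀, hC₀c, hC₀m⟩ := hUo.exists_lt_isCompact hr
  have hC₀' : mu β C₀ᶜ ≤ c := by
    have h1 : mu β C₀ + mu β C₀ᶜ = mu β univ := measure_add_measure_compl hC₀c.measurableSet
    have h2 : mu β univ ≤ mu β C₀ + c := by
      have := hC₀m.le
      rwa [tsub_le_iff_right] at this
    rw [← h1] at h2
    exact (ENNReal.add_le_add_iff_left (measure_lt_top _ _).ne).mp h2
  have hev : ∀ᶠ x in 𝓝 x₁, ∀ ζ ∈ C₀, (x, ζ) ∈ USC.W S N := by
    apply IsCompact.eventually_forall_of_forall_eventually hC₀c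
    intro ζ hζ
    apply (USC.isOpen_W S N).mem_nhds
    by_contra hcon
    exact hC₀ hζ ((hmem N ζ).mpr hcon)
  obtain ⟨σ, hσ, hσ'⟩ := Metric.eventually_nhds_iff.mp hev
  refine ⟨σ, N, hσ, fun x hxU hx => ?_⟩
  have hx' := hσ' (y := x) (by rwa [dist_eq_norm])
  refine le_trans (measure_mono ?_) hC₀'
  intro ζ hζ hcon
  obtain ⟨_, k, m, hm, h2⟩ := hx' ζ hcon
  exact hζ k m hm h2

end Pool.Agent.W366.REUSC
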