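import Pool.Agent.W373.Unif.Statements

set_option autoImplicit false

/-! # Uniform rational generating functions have coefficients which are constant modulo five -/

namespace Pool.Agent.W366.UnifRat

open Polynomial Pool.Agent.W373.Unif

/-- Primes close to one, outside of a finite set. -/
theorem exists_prime (S : Finset ℕ) (M : ℕ) : ∃ p : ℕ, p.Prime ∧ p ∉ S ∧ (5 : ℤ) ^ M ∣ (p : ℤ) - 1 := by
  obtain ⟨p, hp, hlt, hmod⟩ := Nat.exists_prime_gt_modEq_one (k := 5 ^ M) (S.sup id) (by positivity)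
  refine ⟨p, hp, fun h => ?_, ?_⟩
  · have := Finset.le_sup (f := id) h
    simp only [id] at this
    omega
  · have h := (Nat.modEq_iff_dvd.1 hmod.symm)
    push_cast at h
    exact h

theorem eq_zero_of_dvd (n : ℤ) (h : ∀ M : ℕ, (5 : ℤ) ^ M ∣ n) : n = 0 := by
  refine Int.eq_zero_of_abs_lt_dvd (h n.natAbs) ?_
  rw [Int.abs_eq_natAbs]
  exact_mod_cast Nat.lt_pow_self (by norm_num : 1 < 5)

/-- Removing the zero at `1` of the denominator. -/
theorem reduce (S : Finset ℕ) (a : ℕ → ℕ) : ∀ (n : ℕ) (D N : ℤ[X]), D.natDegree ≤ n → D ≠ 0 →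
    (∀ p : ℕ, p.Prime → p ∉ S → D.eval (p : ℤ) * a p = N.eval (p : ℤ)) →
    ∃ D' N' : ℤ[X], D'.eval 1 ≠ 0 ∧
      ∀ p : ℕ, p.Prime → p ∉ S → D'.eval (p : ℤ) * a p = N'.eval (p : ℤ) := by
  intro n
  induction n with
  | zero =>
    intro D N hn hD h
    refine ⟨D, N, ?_, h⟩
    rw [eq_C_of_natDegree_le_zero hn, eval_C]
    intro h0
    apply hD
    rw [eq_C_of_natDegree_le_zero hn, h0, C_0]
  | succ n ih =>
    intro D N hn hD h
    by_cases h1 : D.eval 1 = 0
    · have hN1 : N.eval 1 = 0 := by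
        refine eq_zero_of_dvd _ fun M => ?_
        obtain ⟨p, hp, hpS, hdvd⟩ := exists_prime S M
        have h2 : (5 : ℤ) ^ M ∣ D.eval (p : ℤ) := by
          have := hdvd.trans (sub_dvd_eval_sub (p : ℤ) 1 D)
          rwa [h1, sub_zero] at this
        have h3 : (5 : ℤ) ^ M ∣ N.eval (p : ℤ) := by
          rw [← h p hp hpS]
          exact h2.mul_right _
        have h4 := hdvd.trans (sub_dvd_eval_sub (p : ℤ) 1 N)
        have h5 := dvd_sub h3 h4
        rwa [sub_sub_cancel] at h5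
      obtain ⟨D', hD'⟩ := dvd_iff_isRoot.2 h1
      obtain ⟨N', hN'⟩ := dvd_iff_isRoot.2 hN1
      have hD'0 : D' ≠ 0 := by
        rintro rfl
        exact hD (by rw [hD', mul_zero])
      refine ih D' N' ?_ hD'0 fun p hp hpS => ?_
      · have : D.natDegree = 1 + D'.natDegree := by
          rw [hD', natDegree_mul (X_sub_C_ne_zero 1) hD'0, natDegree_X_sub_C]
        omega
      · have h2 := h p hp hpS
        rw [hD', hN', eval_mul, eval_mul, eval_sub, eval_X, eval_C, mul_assoc] at h2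
        refine mul_left_cancel₀ ?_ h2
        have : (1 : ℤ) < p := by exact_mod_cast hp.one_lt
        linarith
    · exact ⟨D, N, h1, h⟩

/-- Clearing denominators. -/
theorem clear (S : Finset ℕ) (a : ℕ → ℕ) (D N : ℚ[X]) (hD : D ≠ 0)
    (h : ∀ p : ℕ, p.Prime → p ∉ S → D.eval (p : ℚ) * a p = N.eval (p : ℚ)) :
    ∃ D' N' : ℤ[X], D' ≠ 0 ∧
      ∀ p : ℕ, p.Prime → p ∉ S → D'.eval (p : ℤ) * a p = N'.eval (p : ℤ) := by
  obtain ⟨b, hbm, hb⟩ := IsLocalization.integerNormalization_spec (nonZeroDivisors ℤ) D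
  obtain ⟨c, hcm, hc⟩ := IsLocalization.integerNormalization_spec (nonZeroDivisors ℤ) N
  set D₀ := IsLocalization.integerNormalization (nonZeroDivisors ℤ) D
  set N₀ := IsLocalization.integerNormalization (nonZeroDivisors ℤ) N
  have hb0 : (b : ℤ) ≠ 0 := nonZeroDivisors.ne_zero hbm
  have hc0 : (c : ℤ) ≠ 0 := nonZeroDivisors.ne_zero hcm
  have e1 : ∀ (E : ℤ[X]) (p : ℕ), ((E.eval (p : ℤ) : ℤ) : ℚ) =
      (E.map (algebraMap ℤ ℚ)).eval (p : ℚ) := by
    intro E p
    rw [eval_natCast_map]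
    rfl
  have hb' : ∀ p : ℕ, ((D₀.eval (p : ℤ) : ℤ) : ℚ) = (b : ℤ) * D.eval (p : ℚ) := by
    intro p
    rw [e1, hb]
    have : (b : ℤ) • D = C ((b : ℤ) : ℚ) * D := by
      rw [zsmul_eq_mul]; simp
    change ((b : ℤ) • D).eval _ = _
    rw [this, eval_mul, eval_C]
  have hc' : ∀ p : ℕ, ((N₀.eval (p : ℤ) : ℤ) : ℚ) = (c : ℤ) * N.eval (p : ℚ) := by
    intro p
    rw [e1, hc]
    have : (c : ℤ) • N = C ((c : ℤ) : ℚ) * N := by
      rw [zsmul_eq_mul]; simp
    change ((c : ℤ) • N).eval _ = _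
    rw [this, eval_mul, eval_C]
  refine ⟨C (c : ℤ) * D₀, C (b : ℤ) * N₀, ?_, fun p hp hpS => ?_⟩
  · refine mul_ne_zero (C_ne_zero.2 hc0) ?_
    intro h0
    rw [h0, Polynomial.map_zero] at hb
    have : (b : ℤ) • D = C ((b : ℤ) : ℚ) * D := by
      rw [zsmul_eq_mul]; simp
    change 0 = (b : ℤ) • D at hb
    rw [this] at hb
    rcases mul_eq_zero.1 hb.symm with h1 | h1
    · rw [C_eq_zero] at h1
      exact hb0 (by exact_mod_cast h1)
    · exact hD h1
  · have h1 := h p hp hpS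
    have h2 : ((((C (c : ℤ) * D₀).eval (p : ℤ) * a p : ℤ)) : ℚ) =
        (((C (b : ℤ) * N₀).eval (p : ℤ) : ℤ) : ℚ) := by
      rw [eval_mul, eval_mul, eval_C, eval_C]
      push_cast
      rw [hb', hc']
      linear_combination ((c : ℤ) : ℚ) * ((b : ℤ) : ℚ) * h1
    exact_mod_cast h2

/-- The coefficients are rational functions of the prime. -/
theorem ratio (a : ℕ → ℕ → ℕ) (P Q : Polynomial (Polynomial ℚ)) (S : Finset ℕ)
    (h : ∀ p : ℕ, p.Prime → p ∉ S →
      Q.map (Polynomial.evalRingHom (p : ℚ)) ≠ 0 ∧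
      (↑(Q.map (Polynomial.evalRingHom (p : ℚ))) : PowerSeries ℚ) *
        PowerSeries.mk (fun k : ℕ => (a p k : ℚ)) =
        (↑(P.map (Polynomial.evalRingHom (p : ℚ))) : PowerSeries ℚ)) (k : ℕ) :
    ∃ N : ℚ[X], ∀ p : ℕ, p.Prime → p ∉ S →
      ((Q.coeff Q.natTrailingDegree) ^ (k + 1)).eval (p : ℚ) * a p k = N.eval (p : ℚ) := by
  set v := Q.natTrailingDegree with hv
  have hrec : ∀ (n p : ℕ), p.Prime → p ∉ S → ∑ j ∈ Finset.range (n + 1),
      (Q.coeff (v + n - j)).eval (p : ℚ) * a p j = (P.coeff (v + n)).eval (p : ℚ) := by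
    intro n p hp hpS
    have h1 := congrArg (PowerSeries.coeff (v + n)) (h p hp hpS).2
    rw [PowerSeries.coeff_mul, Polynomial.coeff_coe, coeff_map,
      Finset.Nat.sum_antidiagonal_eq_sum_range_succ_mk] at h1
    simp only [Polynomial.coeff_coe, coeff_map, PowerSeries.coeff_mk, coe_evalRingHom] at h1
    have h5 := Finset.sum_range_reflect
      (fun x => (Q.coeff x).eval (p : ℚ) * (a p (v + n - x) : ℚ)) (v + n + 1)
    rw [← h1]
    refine Eq.trans ?_ h5
    rw [← Finset.sum_subset (Finset.range_mono (show n + 1 ≤ v + n + 1 by omega))]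
    · refine Finset.sum_congr rfl fun j hj => ?_
      have hj' := Finset.mem_range.1 hj
      have e1 : v + n + 1 - 1 - j = v + n - j := by omega
      have e2 : v + n - (v + n - j) = j := by omega
      rw [e1, e2]
    · intro j hj hj'
      have h2 := Finset.mem_range.1 hj
      have h3 : n + 1 ≤ j := by
        by_contra hlt
        exact hj' (Finset.mem_range.2 (by omega))
      have h4 : Q.coeff (v + n + 1 - 1 - j) = 0 :=
        coeff_eq_zero_of_lt_natTrailingDegree (by omega)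
      rw [h4, eval_zero, zero_mul]
  induction k using Nat.strong_induction_on with
  | _ k ih =>
    choose! N hN using ih
    refine ⟨(Q.coeff v) ^ k * P.coeff (v + k) - ∑ j ∈ Finset.range k,
      Q.coeff (v + k - j) * (Q.coeff v ^ (k - 1 - j) * N j), fun p hp hpS => ?_⟩
    have h1 := hrec k p hp hpS
    rw [Finset.sum_range_succ, Nat.add_sub_cancel] at h1
    have h2 : ∀ j ∈ Finset.range k, (Q.coeff (v + k - j) *
        (Q.coeff v ^ (k - 1 - j) * N j)).eval (p : ℚ) = (Q.coeff v).eval (p : ℚ) ^ k *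
          ((Q.coeff (v + k - j)).eval (p : ℚ) * a p j) := by
      intro j hj
      have hj' := Finset.mem_range.1 hj
      rw [eval_mul, eval_mul, ← hN j hj' p hp hpS, eval_pow, eval_pow]
      have h3 : (Q.coeff v).eval (p : ℚ) ^ k = (Q.coeff v).eval (p : ℚ) ^ (k - 1 - j) *
          (Q.coeff v).eval (p : ℚ) ^ (j + 1) := by
        rw [← pow_add]
        congr 1
        omega
      rw [h3]
      ring
    rw [eval_sub, eval_finsetSum, Finset.sum_congr rfl h2, ← Finset.mul_sum, eval_mul, eval_pow,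
      ← h1, eval_pow]
    ring

theorem main : S_Rat := by
  rintro a ⟨P, Q, S, h⟩ k
  have hQ : Q ≠ 0 := by
    rintro rfl
    obtain ⟨p, hp, hpS, -⟩ := exists_prime S 0
    exact (h p hp hpS).1 (by rw [Polynomial.map_zero])
  obtain ⟨N₀, hN₀⟩ := ratio a P Q S h k
  have hD₀ : (Q.coeff Q.natTrailingDegree) ^ (k + 1) ≠ 0 := by
    apply pow_ne_zero
    rw [← Polynomial.trailingCoeff]
    exact trailingCoeff_nonzero_iff_nonzero.2 hQ
  obtain ⟨D₁, N₁, hD₁, h₁⟩ := clear S (fun p => a p k) _ N₀ hD₀ hN₀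
  obtain ⟨D, N, hD, hDN⟩ := reduce S (fun p => a p k) _ D₁ N₁ le_rfl hD₁ h₁
  refine ⟨(D.eval 1).natAbs, S.sup id, fun p q hp hq hSp hSq hmp hmq => ?_⟩
  set m := (D.eval 1).natAbs with hm
  have hS : ∀ r : ℕ, S.sup id < r → r ∉ S := by
    intro r hr hrS
    have := Finset.le_sup (f := id) hrS
    simp only [id] at this
    omega
  have key : ∀ r : ℕ, r.Prime → S.sup id < r → r ≡ 1 [MOD 5 ^ m] →
      (5 : ℤ) ^ m ∣ D.eval 1 * a r k - N.eval 1 := by
    intro r hr hSr hmr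
    have hdvd : (5 : ℤ) ^ m ∣ (r : ℤ) - 1 := by
      have h := (Nat.modEq_iff_dvd.1 hmr.symm)
      push_cast at h
      exact h
    have h1 := hdvd.trans (sub_dvd_eval_sub (r : ℤ) 1 D)
    have h2 := hdvd.trans (sub_dvd_eval_sub (r : ℤ) 1 N)
    have h3 := hDN r hr (hS r hSr)
    have h4 : D.eval 1 * a r k - N.eval 1 =
        (N.eval (r : ℤ) - N.eval 1) - (D.eval (r : ℤ) - D.eval 1) * a r k := by
      rw [← h3]; ring
    rw [h4]
    exact dvd_sub h2 (h1.mul_right _)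
  have h5 := dvd_sub (key p hp hSp hmp) (key q hq hSq hmq)
  have h6 : D.eval 1 * (a p k : ℤ) - N.eval 1 - (D.eval 1 * (a q k : ℤ) - N.eval 1) =
      D.eval 1 * ((a p k : ℤ) - a q k) := by ring
  rw [h6] at h5
  rw [Nat.ModEq.comm, Nat.modEq_iff_dvd]
  by_contra hnot
  have hcop : IsCoprime ((5 : ℤ) ^ m) ((a p k : ℤ) - a q k) := by
    apply IsCoprime.pow_left
    have h5p : Prime (5 : ℤ) := by norm_num
    exact (h5p.coprime_iff_not_dvd).2 (by exact_mod_cast hnot)
  have h7 := hcop.dvd_of_dvd_mul_right h5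
  refine hD (Int.eq_zero_of_abs_lt_dvd h7 ?_)
  rw [Int.abs_eq_natAbs]
  exact_mod_cast Nat.lt_pow_self (by norm_num : 1 < 5)

end Pool.Agent.W366.UnifRat
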