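import Pool.Agent.W957.CH.Stm

/-! Project CH: end clumps have no attachments in free intervals where `W` has three attachments. -/

set_option autoImplicit false

namespace Pool.Agent.W366.CHEC3

open Finset Pool.Agent.W957.CH

variable {V : Type}

theorem pf_rev {G : SimpleGraph V} {u v : V} {l : List V} (h : PF G u v l) :
    PF G v u l.reverse := by
  obtain ⟨⟨h1, h2⟩, h3, h4⟩ := h
  refine ⟨⟨List.nodup_reverse.2 h1, ?_⟩, ?_, ?_⟩
  · rw [List.isChain_reverse]
    exact h2.imp (fun a b h => h.symm)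
  · rw [List.head?_reverse]; exact h4
  · rw [List.getLast?_reverse]; exact h3

theorem mem_nbr {G : SimpleGraph V} {A P : Finset V} {w : V} :
    w ∈ nbr G A P ↔ w ∈ A ∧ w ∉ P ∧ ∃ p ∈ P, G.Adj p w := by
  classical
  unfold nbr
  exact Finset.mem_filter

section
variable [DecidableEq V]

theorem mem_img {n : ℕ} {c : ℕ → V} {x : V} : x ∈ img n c ↔ ∃ i, i < n ∧ c i = x := by
  unfold img
  simp

/-- the part of a path after its last vertex in `insert v S` -/
theorem exit {G : SimpleGraph V} {W S : Finset V} {v w : V} (hv : nbr G W S = {v}) (hw : w ∉ S) :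
    ∀ l : List V, l.IsChain G.Adj → l.Nodup → (∀ x ∈ l, x ∈ W) → (∃ x ∈ l, x ∈ insert v S) →
      l.getLast? = some w →
      ∃ l3 : List V, (v :: l3).IsChain G.Adj ∧ (v :: l3).Nodup ∧ (v :: l3).getLast? = some w ∧
        ∀ x ∈ l3, x ∈ W ∧ x ∉ insert v S := by
  intro l
  induction l with
  | nil =>
    rintro _ _ _ ⟨x, hx, _⟩
    exact absurd hx List.not_mem_nil
  | cons u l' ih =>
    intro hc hn hW hex hl
    rw [List.nodup_cons] at hn
    by_cases h : ∃ x ∈ l', x ∈ insert v S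
    · refine ih ?_ hn.2 (fun x hx => hW x (List.mem_cons_of_mem _ hx)) h ?_
      · rw [List.isChain_cons] at hc
        exact hc.2
      · obtain ⟨x, hx, _⟩ := h
        cases l' with
        | nil => exact absurd hx List.not_mem_nil
        | cons y l'' => rw [List.getLast?_cons_cons] at hl; exact hl
    · have hu : u ∈ insert v S := by
        obtain ⟨x, hx, hx'⟩ := hex
        rcases List.mem_cons.1 hx with h2 | h2
        · rw [← h2]; exact hx'
        · exact absurd ⟨x, h2, hx'⟩ h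
      have huv : u = v := by
        rcases Finset.mem_insert.1 hu with h2 | h2
        · exact h2
        · exfalso
          cases l' with
          | nil =>
            simp only [List.getLast?_singleton, Option.some.injEq] at hl
            exact hw (hl ▸ h2)
          | cons y l'' =>
            rw [List.isChain_cons_cons] at hc
            have hy : y ∉ insert v S := fun hy => h ⟨y, List.mem_cons_self, hy⟩
            have h4 : y ∈ nbr G W S := mem_nbr.2 ⟨hW y (by simp), fun h5 =>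
              hy (Finset.mem_insert_of_mem h5), u, h2, hc.1⟩
            rw [hv, Finset.mem_singleton] at h4
            exact hy (h4 ▸ Finset.mem_insert_self _ _)
      subst huv
      refine ⟨l', hc, List.nodup_cons.2 hn, hl, fun x hx => ⟨hW x (List.mem_cons_of_mem _ hx),
        fun hx' => h ⟨x, hx, hx'⟩⟩⟩

theorem fan (h3 : S_EC1) {G : SimpleGraph V} {W T S : Finset V} {v : V}
    (hW : Con G W) (hEC : EC G W T S) (hv : nbr G W S = {v}) {x z w : V} (hx : x ∈ S) (hz : z ∈ S)
    (hw : w ∈ W) (hxz : x ≠ z) (hxw : x ≠ w) (hzw : z ≠ w) :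
    ∃ R, PF G x w R ∧ z ∈ R ∧ ∀ u ∈ R, u ∈ W := by
  have hSW : S ⊆ W := hEC.1.2.1
  have hvn : v ∈ nbr G W S := by rw [hv]; exact Finset.mem_singleton_self v
  obtain ⟨hvW, hvS, -⟩ := mem_nbr.1 hvn
  obtain ⟨-, -, hfan⟩ := h3 V G W T S v hW hEC hv
  have hins : ∀ u ∈ insert v S, u ∈ W := by
    intro u hu
    rcases Finset.mem_insert.1 hu with h | h
    · rw [h]; exact hvW
    · exact hSW h
  by_cases hwS : w ∈ S
  · obtain ⟨l1, l2, hl, hm⟩ := hfan x (Finset.mem_insert_of_mem hx) w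
      (Finset.mem_insert_of_mem hwS) z (Finset.mem_insert_of_mem hz) hxw hxz (Ne.symm hzw)
    exact ⟨l1 ++ z :: l2, hl, by simp, fun u hu => hins u (hm u hu)⟩
  · have hxv : x ≠ v := fun h => hvS (h ▸ hx)
    have hzv : z ≠ v := fun h => hvS (h ▸ hz)
    obtain ⟨l1, l2, hl, hm⟩ := hfan x (Finset.mem_insert_of_mem hx) v
      (Finset.mem_insert_self _ _) z (Finset.mem_insert_of_mem hz) hxv hxz (Ne.symm hzv)
    obtain ⟨l, ⟨⟨hn, hc⟩, hh, hlast⟩, hlW⟩ := hW.2 x (hSW hx) w hw
    have hex : ∃ y ∈ l, y ∈ insert v S :=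
      ⟨x, List.mem_of_mem_head? hh, Finset.mem_insert_of_mem hx⟩
    obtain ⟨l3, k1, k2, k3, k4⟩ := exit hv hwS l hc hn hlW hex hlast
    obtain ⟨⟨m1, m2⟩, m3, m4⟩ := hl
    rw [List.isChain_cons] at k1
    rw [List.nodup_cons] at k2
    refine ⟨(l1 ++ z :: l2) ++ l3, ⟨⟨?_, ?_⟩, ?_, ?_⟩, by simp, ?_⟩
    · rw [List.nodup_append]
      refine ⟨m1, k2.2, ?_⟩
      intro a ha b hb hab
      exact (k4 b hb).2 (hab ▸ hm a ha)
    · rw [List.isChain_append]
      refine ⟨m2, k1.2, ?_⟩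
      intro a ha b hb
      rw [m4] at ha
      have hav : v = a := by simpa using ha
      rw [← hav]
      exact k1.1 b hb
    · rw [List.head?_append, m3]
      rfl
    · rw [List.getLast?_append, m4]
      rw [List.getLast?_cons] at k3
      cases hl3 : l3.getLast? with
      | none => rw [hl3] at k3; exact k3
      | some y => rw [hl3] at k3; exact k3
    · intro u hu
      rcases List.mem_append.1 hu with h | h
      · exact hins u (hm u h)
      · exact (k4 u h).1

theorem btw (h1 : S_EAR) {X : Cx V} {n : ℕ} {c : ℕ → V} {a b : ℕ} {W T : Finset V} (hO : Ok X)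
    (hG : Good X n c) (hP : Pc X n c W T) (hbn : b < n) (hF : Free X.G n c a b)
    (hab : 2 * (b - a) ≤ n) {x w z : V} {p e q : ℕ} {R : List V} (hR : PF X.G x w R)
    (hRW : ∀ u ∈ R, u ∈ W) (hp1 : a ≤ p) (hp2 : p ≤ b) (he1 : a ≤ e) (he2 : e ≤ b) (hpe : p ≠ e)
    (hx : X.G.Adj x (c p)) (hw : X.G.Adj w (c e)) (hz : z ∈ R) (hzx : z ≠ x) (hzw : z ≠ w)
    (hq : q < n) (hzq : X.G.Adj z (c q)) : (p < q ∧ q < e) ∨ (e < q ∧ q < p) := by
  have hW : ∀ u ∈ R, u ∈ X.A ∧ u ∉ img n c := fun u hu =>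
    ⟨hP.sub (hRW u hu), fun h => Finset.disjoint_left.1 hP.dis (hRW u hu) h⟩
  rcases lt_or_gt_of_ne hpe with h | h
  · left
    have hE : Ear X n c p e R := ⟨⟨x, w, hR, hx.symm, hw⟩, hW⟩
    obtain ⟨_, k, _⟩ := h1 V X n c p e R hO hG h (by omega)
      (fun i hi hi' => hF i (by omega) (by omega)) (by omega) hE
    by_contra hcon
    rcases k z hz q hq (by omega) hzq with ⟨_, h3⟩ | ⟨_, h3⟩
    · rw [hR.2.1] at h3
      exact hzx (Option.some.inj h3).symm
    · rw [hR.2.2] at h3
      exact hzw (Option.some.inj h3).symm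
  · right
    have hR' := pf_rev hR
    have hE : Ear X n c e p R.reverse := ⟨⟨w, x, hR', hw.symm, hx⟩, fun u hu =>
      hW u (List.mem_reverse.1 hu)⟩
    obtain ⟨_, k, _⟩ := h1 V X n c e p R.reverse hO hG h (by omega)
      (fun i hi hi' => hF i (by omega) (by omega)) (by omega) hE
    by_contra hcon
    rcases k z (List.mem_reverse.2 hz) q hq (by omega) hzq with ⟨_, h3⟩ | ⟨_, h3⟩
    · rw [hR'.2.1] at h3
      exact hzw (Option.some.inj h3).symm
    · rw [hR'.2.2] at h3
      exact hzx (Option.some.inj h3).symm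

end

theorem t_EC3 (h1 : S_EAR) (h2 : S_A) (h3 : S_EC1) : S_EC3 := by
  intro V _ X n c a b W T S hO hG hP hab hbn hF hab2 hatt hEC s hs d hda hdb hsd
  have hEC' := hEC
  obtain ⟨⟨hSne, hSW, hST, hcard, hnW⟩, hmin⟩ := hEC'
  obtain ⟨v, hv⟩ := Finset.card_eq_one.1 hcard
  have hA := h2 V X n c a b W T hO hG hP hab hbn hF hab2 hatt
  -- the neighbourhood of `S` in `A`
  have hSA : S ⊆ X.A := fun x hx => hP.sub (hSW hx)
  have hSB : Disjoint S X.B := by
    rw [Finset.disjoint_left]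
    intro x hx hB
    exact Finset.disjoint_left.1 hST hx (hP.bd (Finset.mem_inter.2 ⟨hB, hSW hx⟩))
  have hne : S ∪ nbr X.G X.A S ≠ X.A := by
    intro heq
    apply hnW
    intro x hx
    have hxA := hP.sub hx
    rw [← heq] at hxA
    rcases Finset.mem_union.1 hxA with h | h
    · exact Finset.mem_union_left _ h
    · obtain ⟨_, k2, k3⟩ := mem_nbr.1 h
      exact Finset.mem_union_right _ (mem_nbr.2 ⟨hx, k2, k3⟩)
  have hreg := (hO.reg S hSA hSne hSB hne).1
  have hsub : nbr X.G X.A S ⊆ insert v ((nbr X.G X.A S).filter (fun y => y ∈ img n c)) := by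
    intro y hy
    obtain ⟨k1, k2, p, hp, hpy⟩ := mem_nbr.1 hy
    have hpT : p ∉ T := Finset.disjoint_left.1 hST hp
    have hyp : y ∈ nbr X.G X.A {p} := mem_nbr.2 ⟨k1, fun h =>
      k2 (Finset.mem_singleton.1 h ▸ hp), p, Finset.mem_singleton_self p, hpy⟩
    rcases Finset.mem_union.1 (hP.cl p (hSW hp) hpT hyp) with h | h
    · have hyv : y ∈ nbr X.G W S := mem_nbr.2 ⟨h, k2, p, hp, hpy⟩
      rw [hv, Finset.mem_singleton] at hyv
      rw [hyv]
      exact Finset.mem_insert_self _ _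
    · exact Finset.mem_insert_of_mem (Finset.mem_filter.2 ⟨hy, h⟩)
  have hc2 : 1 < ((nbr X.G X.A S).filter (fun y => y ∈ img n c)).card := by
    have k1 := Finset.card_le_card hsub
    have k2 := Finset.card_insert_le v ((nbr X.G X.A S).filter (fun y => y ∈ img n c))
    omega
  obtain ⟨y, hy, hyd⟩ := Finset.exists_mem_ne hc2 (c d)
  obtain ⟨hy1, hy2⟩ := Finset.mem_filter.1 hy
  obtain ⟨e2, he2, rfl⟩ := mem_img.1 hy2
  obtain ⟨_, _, s2, hs2, hs2e⟩ := mem_nbr.1 hy1
  have hde2 : e2 ≠ d := fun h => hyd (by rw [h])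
  have hss2 : s ≠ s2 := by
    intro h
    rw [← h] at hs2e
    exact hde2 (hA s (hSW hs) d hda hdb hsd e2 he2 hs2e)
  -- the third attachment
  have hc3 : ({d, e2} : Finset ℕ).card < (att X.G c a b W).card := by
    have := Finset.card_le_two (a := d) (b := e2)
    omega
  obtain ⟨e, he, hne2⟩ := Finset.exists_mem_notMem_of_card_lt_card hc3
  have hed : e ≠ d := fun h => hne2 (by rw [h]; exact Finset.mem_insert_self _ _)
  have hee2 : e ≠ e2 := fun h => hne2 (by
    rw [h]; exact Finset.mem_insert_of_mem (Finset.mem_singleton_self _))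
  have he0 : e ∈ Finset.Icc a b ∧ ∃ v ∈ W, X.G.Adj v (c e) := by
    unfold att at he
    classical
    exact Finset.mem_filter.1 he
  obtain ⟨he1, w, hw, hwe⟩ := he0
  obtain ⟨hea, heb⟩ := Finset.mem_Icc.1 he1
  have hsw : s ≠ w := by
    intro h
    rw [← h] at hwe
    exact hed (hA s (hSW hs) d hda hdb hsd e (by omega) hwe)
  have hs2w : s2 ≠ w := by
    intro h
    rw [h] at hs2e
    exact hee2 (hA w hw e hea heb hwe e2 he2 hs2e).symm
  obtain ⟨R, hR1, hR2, hR3⟩ := fan h3 hP.con hEC hv hs hs2 hw hss2 hsw hs2w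
  have b1 := btw h1 hO hG hP hbn hF hab2 hR1 hR3 hda hdb hea heb (Ne.symm hed) hsd hwe hR2
    (Ne.symm hss2) hs2w he2 hs2e
  obtain ⟨R', hR1', hR2', hR3'⟩ := fan h3 hP.con hEC hv hs2 hs hw (Ne.symm hss2) hs2w hsw
  have b2 := btw h1 hO hG hP hbn hF hab2 hR1' hR3' (p := e2) (by omega) (by omega) hea heb
    (Ne.symm hee2) hs2e hwe hR2' hss2 hsw (q := d) (by omega) hsd
  omega

end Pool.Agent.W366.CHEC3
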