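import Pool.Agent.W707.FE.A

/-! FE-LAT: lattice sums against integrals (from Euler-Maclaurin). -/

namespace Pool.Agent.W366.FELat

open Filter MeasureTheory Pool.Agent.W707.FE
open scoped Real Topology Nat

theorem exp_small (a : ℝ) (ha : 0 < a) (K : ℕ) (ε : ℝ) (hε : 0 < ε) :
    Real.exp (-(a / ε)) ≤ K ! / a ^ K * ε ^ K := by
  have h := Real.pow_div_factorial_le_exp (a / ε) (by positivity) K
  rw [Real.exp_neg]
  have h1 : 0 < (a / ε) ^ K / K ! := by positivity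
  calc (Real.exp (a / ε))⁻¹ ≤ ((a / ε) ^ K / K !)⁻¹ := inv_anti₀ h1 h
    _ = K ! / a ^ K * ε ^ K := by
        rw [div_pow, inv_div, div_div_eq_mul_div]
        ring

theorem cauchy (F : ℂ → ℂ) (p : ℂ) (R A : ℝ) (hR : 0 < R)
    (h : ∀ w, ‖w - p‖ ≤ R → DifferentiableAt ℂ F w ∧ ‖F w‖ ≤ A) (k : ℕ) :
    ‖iteratedDeriv k F p‖ ≤ k ! * A / R ^ k := by
  refine Complex.norm_iteratedDeriv_le_of_forall_mem_sphere_norm_le k hR ?_ ?_
  · refine DifferentiableOn.diffContOnCl_ball (U := Metric.closedBall p R) ?_ subset_rfl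
    intro w hw
    rw [Metric.mem_closedBall, dist_eq_norm] at hw
    exact (h w hw).1.differentiableWithinAt
  · intro w hw
    rw [mem_sphere_iff_norm] at hw
    exact (h w hw.le).2

theorem lat (hEM : S_EM) : S_LAT := by
  intro α₀ ρ c hρ hα hc K
  obtain ⟨b, hb⟩ := hEM 0 le_rfl zero_le_one
  obtain ⟨C₁, hC₁, hE⟩ := hb (2 * K + 1)
  set a : ℝ := c * ρ ^ 2 / 4 with ha
  have ha0 : 0 < a := by positivity
  set S : ℝ := ∑ k ∈ Finset.range (2 * K + 1), |b k| * (k ! * 4 ^ k) with hS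
  have hS0 : 0 ≤ S := Finset.sum_nonneg fun k _ => by positivity
  refine ⟨C₁ * (4 ^ (K + 1) * (2 * ρ + 2)) + (2 * S + 2) * (K ! / a ^ K),
    min (1 / 64) (min (ρ / 4) ((ρ / 4) ^ 2)), by positivity, ?_⟩
  intro F ε M s hε hε0 hM hs hF
  have e1 : ε ≤ 1 / 64 := hε0.trans (min_le_left _ _)
  have e2 : ε ≤ ρ / 4 := hε0.trans ((min_le_right _ _).trans (min_le_left _ _))
  have e3 : ε ≤ (ρ / 4) ^ 2 := hε0.trans ((min_le_right _ _).trans (min_le_right _ _))
  set r := Real.sqrt ε with hr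
  have hr0 : 0 < r := Real.sqrt_pos.mpr hε
  have hrr : r * r = ε := Real.mul_self_sqrt hε.le
  have hr1 : r ≤ 1 / 8 := by
    rw [hr]
    apply Real.sqrt_le_iff.mpr
    constructor
    · norm_num
    · linarith
  have hr2 : r ≤ ρ / 4 := by
    rw [hr]
    apply Real.sqrt_le_iff.mpr
    constructor
    · positivity
    · exact e3
  have hFw : ∀ w : ℂ, |w.re - α₀| < 2 * ρ → |w.im| < r →
      DifferentiableAt ℂ F w ∧ ‖F w‖ ≤ M * Real.exp (-c * (w.re - α₀) ^ 2 / ε) := by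
    intro w h1 h2
    have := hF w.re w.im h1 h2
    rwa [Complex.re_add_im] at this
  have hFM : ∀ w : ℂ, |w.re - α₀| < 2 * ρ → |w.im| < r → DifferentiableAt ℂ F w ∧ ‖F w‖ ≤ M := by
    intro w h1 h2
    obtain ⟨h3, h4⟩ := hFw w h1 h2
    refine ⟨h3, h4.trans ?_⟩
    have : Real.exp (-c * (w.re - α₀) ^ 2 / ε) ≤ 1 := by
      rw [Real.exp_le_one_iff]
      apply div_nonpos_of_nonpos_of_nonneg _ hε.le
      have : 0 ≤ c * (w.re - α₀) ^ 2 := by positivity
      linarith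
    exact mul_le_of_le_one_right hM this
  set A : ℝ := M * Real.exp (-(a / ε)) with hA
  have hA0 : 0 ≤ A := by positivity
  have hFA : ∀ w : ℂ, |w.re - α₀| < 2 * ρ → ρ / 2 ≤ |w.re - α₀| → |w.im| < r →
      DifferentiableAt ℂ F w ∧ ‖F w‖ ≤ A := by
    intro w h1 h5 h2
    obtain ⟨h3, h4⟩ := hFw w h1 h2
    refine ⟨h3, h4.trans ?_⟩
    have h6 : ρ ^ 2 / 4 ≤ (w.re - α₀) ^ 2 := by
      rw [← sq_abs (w.re - α₀)]
      nlinarith [abs_nonneg (w.re - α₀)]
    have : Real.exp (-c * (w.re - α₀) ^ 2 / ε) ≤ Real.exp (-(a / ε)) := by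
      rw [Real.exp_le_exp, ← neg_div]
      apply div_le_div_of_nonneg_right _ hε.le
      rw [ha]
      nlinarith
    exact mul_le_mul_of_nonneg_left this hM
  -- the lattice
  have hdl : 0 < α₀ - ρ := by linarith
  have hα0 : 0 < α₀ := by linarith
  set d1 := ⌈(α₀ - ρ) / ε⌉₊ with hd1
  set d2 := ⌊(α₀ + ρ) / ε⌋₊ with hd2
  have h1l : α₀ - ρ ≤ ε * d1 := by
    have := Nat.le_ceil ((α₀ - ρ) / ε)
    rw [div_le_iff₀ hε] at this
    linarith
  have h1u : ε * d1 < α₀ - ρ + ε := by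
    have := Nat.ceil_lt_add_one (a := (α₀ - ρ) / ε) (by positivity)
    have h2 : ε * d1 < ε * ((α₀ - ρ) / ε + 1) := mul_lt_mul_of_pos_left this hε
    have h3 : ε * ((α₀ - ρ) / ε + 1) = α₀ - ρ + ε := by field_simp
    linarith
  have h2l : ε * d2 ≤ α₀ + ρ := by
    have := Nat.floor_le (a := (α₀ + ρ) / ε) (by positivity)
    rw [le_div_iff₀ hε] at this
    linarith
  have h2u : α₀ + ρ < ε * (d2 + 1) := by
    have := Nat.lt_floor_add_one ((α₀ + ρ) / ε)
    rw [div_lt_iff₀ hε] at this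
    linarith
  have h12 : d1 ≤ d2 + 1 := by
    by_contra h
    push Not at h
    have h3 : ((d2 : ℝ) + 1) ≤ d1 := by exact_mod_cast h.le
    have h4 := mul_le_mul_of_nonneg_left h3 hε.le
    linarith
  obtain ⟨n, hn⟩ : ∃ n, d2 + 1 = d1 + n := ⟨d2 + 1 - d1, by omega⟩
  have hnr : ((d2 : ℝ) + 1) = d1 + n := by exact_mod_cast hn
  have hse : s = Finset.Ico d1 (d2 + 1) := by
    ext d
    rw [hs, Finset.mem_Ico, Nat.lt_succ_iff, hd1, hd2, Nat.ceil_le, Nat.le_floor_iff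
      (by positivity), div_le_iff₀ hε, le_div_iff₀ hε, abs_le]
    constructor
    · rintro ⟨h3, h4⟩
      constructor <;> linarith
    · rintro ⟨h3, h4⟩
      constructor <;> linarith
  set z : ℝ := ε * d1 with hz
  have hsum : ∑ d ∈ s, F ((ε * d : ℝ) : ℂ) =
      ∑ j ∈ Finset.range n, F ((z : ℂ) + ε * ((j : ℂ) + ((0 : ℝ) : ℂ))) := by
    rw [hse, Finset.sum_Ico_eq_sum_range, show d2 + 1 - d1 = n by omega]
    refine Finset.sum_congr rfl fun j _ => ?_
    congr 1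
    rw [hz]
    push_cast
    ring
  have hzn : z + n * ε = ε * (d2 + 1) := by rw [hnr, hz]; ring
  have hnu : α₀ + ρ < z + n * ε := by rw [hzn]; exact h2u
  have hnu' : z + n * ε ≤ α₀ + ρ + ε := by rw [hzn]; linarith
  have hnε : n * ε ≤ 2 * ρ + 2 := by linarith
  have hn0 : 0 ≤ n * ε := by positivity
  -- Euler-Maclaurin
  have hEM' := hE F z n ε (r / 2) M hε (by nlinarith) (by
    intro x hx0 hx1 w hw
    have h3 : |w.re - (z + x)| < r / 2 := by
      have := (Complex.abs_re_le_norm (w - (z + x))).trans_lt hw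
      simpa using this
    have h4 : |w.im| < r / 2 := by
      have := (Complex.abs_im_le_norm (w - (z + x))).trans_lt hw
      simpa using this
    refine hFM w ?_ (by linarith)
    rw [abs_lt] at h3 ⊢
    constructor <;> linarith)
  -- values near the end points
  have hend : ∀ p : ℝ, (p = z ∨ p = z + n * ε) → ∀ k : ℕ,
      ‖iteratedDeriv k F (p : ℂ)‖ ≤ k ! * A / (r / 4) ^ k := by
    intro p hp k
    refine cauchy F p (r / 4) A (by positivity) ?_ k
    intro w hw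
    have h3 : |w.re - p| ≤ r / 4 := by
      have := (Complex.abs_re_le_norm (w - p)).trans hw
      simpa using this
    have h4 : |w.im| ≤ r / 4 := by
      have := (Complex.abs_im_le_norm (w - p)).trans hw
      simpa using this
    rw [abs_le] at h3
    refine hFA w ?_ ?_ (by linarith)
    · rw [abs_lt]
      rcases hp with rfl | rfl
      · constructor <;> linarith
      · constructor <;> linarith
    · rw [le_abs]
      rcases hp with rfl | rfl
      · right; linarith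
      · left; linarith
  have hterm : ∀ p : ℝ, (p = z ∨ p = z + n * ε) → ∀ k : ℕ,
      ε ^ k * ‖iteratedDeriv k F (p : ℂ)‖ ≤ k ! * 4 ^ k * A := by
    intro p hp k
    have h3 := mul_le_mul_of_nonneg_left (hend p hp k) (pow_nonneg hε.le k)
    refine h3.trans ?_
    have h4 : ε ^ k * (k ! * A / (r / 4) ^ k) = r ^ k * (k ! * 4 ^ k * A) := by
      rw [← hrr, div_pow, mul_pow]
      field_simp
    rw [h4]
    have h5 : r ^ k ≤ 1 := pow_le_one₀ hr0.le (by linarith)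
    exact mul_le_of_le_one_left (by positivity) h5
  set Bd : ℂ := ∑ k ∈ Finset.range (2 * K + 1), (b k : ℂ) * (ε : ℂ) ^ k *
        (iteratedDeriv k F ((z : ℂ) + n * ε) - iteratedDeriv k F z) with hBd
  have hBdn : ‖Bd‖ ≤ 2 * S * A := by
    rw [hBd]
    refine (norm_sum_le _ _).trans ?_
    rw [hS, Finset.mul_sum, Finset.sum_mul]
    refine Finset.sum_le_sum fun k _ => ?_
    rw [norm_mul, norm_mul, norm_pow, Complex.norm_real, Complex.norm_real, Real.norm_eq_abs,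
      Real.norm_eq_abs, abs_of_pos hε]
    have h3 : ε ^ k * ‖iteratedDeriv k F ((z : ℂ) + n * ε) - iteratedDeriv k F z‖ ≤
        2 * (k ! * 4 ^ k * A) := by
      have h4 := hterm (z + n * ε) (Or.inr rfl) k
      have h5 := hterm z (Or.inl rfl) k
      have h6 : ((z + n * ε : ℝ) : ℂ) = (z : ℂ) + n * ε := by push_cast; ring
      rw [h6] at h4
      have h7 := mul_le_mul_of_nonneg_left
        (norm_sub_le (iteratedDeriv k F ((z : ℂ) + n * ε)) (iteratedDeriv k F z))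
        (pow_nonneg hε.le k)
      linarith
    calc |b k| * ε ^ k * ‖iteratedDeriv k F ((z : ℂ) + n * ε) - iteratedDeriv k F z‖
        = |b k| * (ε ^ k * ‖iteratedDeriv k F ((z : ℂ) + n * ε) - iteratedDeriv k F z‖) := by ring
      _ ≤ |b k| * (2 * (k ! * 4 ^ k * A)) := mul_le_mul_of_nonneg_left h3 (abs_nonneg _)
      _ = 2 * (|b k| * (k ! * 4 ^ k)) * A := by ring
  -- the integrals
  have hcont : ContinuousOn (fun x : ℝ => F (x : ℂ)) (Set.Ioo (α₀ - 2 * ρ) (α₀ + 2 * ρ)) := by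
    intro x hx
    have h3 : DifferentiableAt ℂ F (x : ℂ) := (hFM x (by
      rw [Complex.ofReal_re, abs_lt]
      constructor <;> linarith [hx.1, hx.2]) (by simpa using hr0)).1
    exact (ContinuousAt.comp (f := fun x : ℝ => (x : ℂ)) (x := x) h3.continuousAt
      Complex.continuous_ofReal.continuousAt).continuousWithinAt
  have hint : ∀ u v : ℝ, α₀ - 2 * ρ < u → u < α₀ + 2 * ρ → α₀ - 2 * ρ < v → v < α₀ + 2 * ρ →
      IntervalIntegrable (fun x : ℝ => F (x : ℂ)) volume u v := by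
    intro u v hu1 hu2 hv1 hv2
    refine (hcont.mono ?_).intervalIntegrable
    intro x hx
    rw [Set.mem_uIcc] at hx
    rcases hx with hx | hx
    · exact ⟨by linarith [hx.1], by linarith [hx.2]⟩
    · exact ⟨by linarith [hx.1], by linarith [hx.2]⟩
  have hI1 : ∫ x in (0 : ℝ)..(n * ε), F ((z : ℂ) + x) = ∫ x in z..(z + n * ε), F (x : ℂ) := by
    have := intervalIntegral.integral_comp_add_left (a := 0) (b := n * ε)
      (fun x : ℝ => F (x : ℂ)) z
    rw [add_zero] at this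
    rw [← this]
    refine intervalIntegral.integral_congr fun x _ => ?_
    show F ((z : ℂ) + x) = F ((z + x : ℝ) : ℂ)
    rw [Complex.ofReal_add]
  have hI2 : (∫ x in z..(z + n * ε), F (x : ℂ)) - ∫ x in (α₀ - ρ)..(α₀ + ρ), F (x : ℂ) =
      (∫ x in (α₀ + ρ)..(z + n * ε), F (x : ℂ)) - ∫ x in (α₀ - ρ)..z, F (x : ℂ) := by
    rw [← intervalIntegral.integral_add_adjacent_intervals
      (hint z (α₀ + ρ) (by linarith) (by linarith) (by linarith) (by linarith))
      (hint (α₀ + ρ) (z + n * ε) (by linarith) (by linarith) (by linarith) (by linarith)),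
      ← intervalIntegral.integral_add_adjacent_intervals
      (hint (α₀ - ρ) z (by linarith) (by linarith) (by linarith) (by linarith))
      (hint z (α₀ + ρ) (by linarith) (by linarith) (by linarith) (by linarith))]
    ring
  have hsmall : ∀ u v : ℝ, u ≤ v → v - u ≤ ε → α₀ - 2 * ρ < u → v < α₀ + 2 * ρ →
      (∀ x ∈ Set.Icc u v, ρ / 2 ≤ |x - α₀|) → ‖∫ x in u..v, F (x : ℂ)‖ ≤ A * ε := by
    intro u v huv hvu h3 h4 h5
    refine (intervalIntegral.norm_integral_le_of_norm_le_const (C := A) ?_).trans ?_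
    · intro x hx
      rw [Set.uIoc_of_le huv] at hx
      refine (hFA x ?_ ?_ ?_).2
      · rw [Complex.ofReal_re, abs_lt]
        constructor <;> linarith [hx.1, hx.2]
      · rw [Complex.ofReal_re]
        exact h5 x ⟨hx.1.le, hx.2⟩
      · simpa using hr0
    · rw [abs_of_nonneg (by linarith)]
      exact mul_le_mul_of_nonneg_left hvu hA0
  have hJ1 := hsmall (α₀ + ρ) (z + n * ε) hnu.le (by linarith) (by linarith) (by linarith) (by
    intro x hx
    rw [le_abs]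
    left; linarith [hx.1])
  have hJ2 := hsmall (α₀ - ρ) z h1l (by linarith) (by linarith) (by linarith) (by
    intro x hx
    rw [le_abs]
    right; linarith [hx.2])
  have hJ : ‖(ε : ℂ)⁻¹ * ((∫ x in z..(z + n * ε), F (x : ℂ)) -
      ∫ x in (α₀ - ρ)..(α₀ + ρ), F (x : ℂ))‖ ≤ 2 * A := by
    rw [hI2, norm_mul, norm_inv, Complex.norm_real, Real.norm_eq_abs, abs_of_pos hε]
    have h3 := (norm_sub_le (∫ x in (α₀ + ρ)..(z + n * ε), F (x : ℂ))
      (∫ x in (α₀ - ρ)..z, F (x : ℂ))).trans (add_le_add hJ1 hJ2)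
    calc ε⁻¹ * ‖(∫ x in (α₀ + ρ)..(z + n * ε), F (x : ℂ)) - ∫ x in (α₀ - ρ)..z, F (x : ℂ)‖
        ≤ ε⁻¹ * (A * ε + A * ε) := mul_le_mul_of_nonneg_left h3 (by positivity)
      _ = 2 * A := by field_simp; ring
  -- conclusion
  rw [hsum]
  rw [hI1] at hEM'
  have hmain : ‖(∑ j ∈ Finset.range n, F ((z : ℂ) + ε * ((j : ℂ) + ((0 : ℝ) : ℂ)))) -
      (ε : ℂ)⁻¹ * ∫ x in (α₀ - ρ)..(α₀ + ρ), F (x : ℂ)‖ ≤
      C₁ * (n * M * (ε / (r / 2)) ^ (2 * K + 1 + 1)) + 2 * S * A + 2 * A := by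
    have h3 : (∑ j ∈ Finset.range n, F ((z : ℂ) + ε * ((j : ℂ) + ((0 : ℝ) : ℂ)))) -
      (ε : ℂ)⁻¹ * ∫ x in (α₀ - ρ)..(α₀ + ρ), F (x : ℂ) =
      ((∑ j ∈ Finset.range n, F ((z : ℂ) + ε * ((j : ℂ) + ((0 : ℝ) : ℂ)))) -
        (ε : ℂ)⁻¹ * (∫ x in z..(z + n * ε), F (x : ℂ)) - Bd) + Bd +
      (ε : ℂ)⁻¹ * ((∫ x in z..(z + n * ε), F (x : ℂ)) -
        ∫ x in (α₀ - ρ)..(α₀ + ρ), F (x : ℂ)) := by ring
    rw [h3]
    exact (norm_add_le _ _).trans (add_le_add ((norm_add_le _ _).trans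
      (add_le_add hEM' hBdn)) hJ)
  refine hmain.trans ?_
  have hpow : (ε / (r / 2)) ^ (2 * K + 1 + 1) = 4 ^ (K + 1) * (ε * ε ^ K) := by
    have h3 : ε / (r / 2) = 2 * r := by
      rw [← hrr]; field_simp
    rw [h3, show 2 * K + 1 + 1 = 2 * (K + 1) by ring, pow_mul, mul_pow, sq r, hrr, mul_pow]
    norm_num
    ring
  rw [hpow]
  have hAle : A ≤ M * (K ! / a ^ K * ε ^ K) :=
    mul_le_mul_of_nonneg_left (exp_small a ha0 K ε hε) hM
  have h5 : C₁ * (n * M * (4 ^ (K + 1) * (ε * ε ^ K))) =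
      C₁ * 4 ^ (K + 1) * M * ε ^ K * (n * ε) := by ring
  rw [h5]
  have h6 : C₁ * 4 ^ (K + 1) * M * ε ^ K * (n * ε) ≤
      C₁ * 4 ^ (K + 1) * M * ε ^ K * (2 * ρ + 2) :=
    mul_le_mul_of_nonneg_left hnε (by positivity)
  have h7 : (2 * S + 2) * A ≤ (2 * S + 2) * (M * (K ! / a ^ K * ε ^ K)) :=
    mul_le_mul_of_nonneg_left hAle (by positivity)
  calc C₁ * 4 ^ (K + 1) * M * ε ^ K * (n * ε) + 2 * S * A + 2 * A
      = C₁ * 4 ^ (K + 1) * M * ε ^ K * (n * ε) + (2 * S + 2) * A := by ring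
    _ ≤ C₁ * 4 ^ (K + 1) * M * ε ^ K * (2 * ρ + 2) +
        (2 * S + 2) * (M * (K ! / a ^ K * ε ^ K)) := add_le_add h6 h7
    _ = (C₁ * (4 ^ (K + 1) * (2 * ρ + 2)) + (2 * S + 2) * (K ! / a ^ K)) * M * ε ^ K := by ring

end Pool.Agent.W366.FELat
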