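import Pool.Agent.W428.MOT.EStm

/-!
# Project ME, part ESUB: affine substitution in one coordinate, equivariant version
-/

set_option autoImplicit false

namespace Pool.Agent.W366.MESub

open Pool.Agent.W428.MOT

theorem main : S_ESub := by
  intro K _ n f R _ M ι _ _ S T ρ ρ' d β i a b hS hT hρ hβ ha hb ha' hb' haw hbw haS haT hST
  have e1 : ∀ z : Pt K ι, a z ≠ 0 →
      Function.update (Function.update z i (a z * z i + b z)) i
        ((a z * z i + b z - b z) / a z) = z := by
    intro z hz
    rw [Function.update_idem, add_sub_cancel_right, mul_div_cancel_left₀ _ hz,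
      Function.update_eq_self]
  have e2 : ∀ w : Pt K ι, a w ≠ 0 →
      Function.update (Function.update w i ((w i - b w) / a w)) i
        (a w * ((w i - b w) / a w) + b w) = w := by
    intro w hw
    rw [Function.update_idem, mul_div_cancel₀ _ hw, sub_add_cancel, Function.update_eq_self]
  refine M.iso S T ρ ρ' d d β β hS hT (fun z => Function.update z i (a z * z i + b z))
    (fun w => Function.update w i ((w i - b w) / a w)) ?_ ?_ ?_ ?_ ?_ ?_ ?_ ?_
  · intro j
    rcases eq_or_ne j i with rfl | hj
    · refine IsPF.isRF ?_ S
      simp only [Function.update_self]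
      exact (ha.mul (IsPF.coord _)).add hb
    · refine IsPF.isRF ?_ S
      simp only [Function.update_of_ne hj]
      exact IsPF.coord _
  · intro j
    rcases eq_or_ne j i with rfl | hj
    · have h1 : IsRF T (fun z : Pt K ι => (z j - b z) / a z) :=
        (((IsPF.coord j).sub hb).isRF T).div (ha.isRF T) haT
      change IsRF T _
      simp only [Function.update_self]
      exact h1
    · refine IsPF.isRF ?_ T
      simp only [Function.update_of_ne hj]
      exact IsPF.coord _
  · intro z hz
    exact (hST z (haS z hz)).1 hz
  · intro w hw
    have hw0 := haT w hw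
    change Function.update w i ((w i - b w) / a w) ∈ S
    rw [hST _ (by rw [ha']; exact hw0), ha', hb', Function.update_self, e2 w hw0]
    exact hw
  · intro z hz
    have hz0 := haS z hz
    simp only [ha', hb', Function.update_self]
    exact e1 z hz0
  · intro w hw
    have hw0 := haT w hw
    simp only [ha', hb', Function.update_self]
    exact e2 w hw0
  · intro z _
    funext j
    simp only [cbase]
    cases hj : β j with
    | none => rfl
    | some p =>
      have hp : p ≠ i := by
        rintro rfl
        exact hβ j hj
      simp only [Option.elim, Function.update_of_ne hp]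
  · intro l hl z _
    have hl' : (l ^ d) ^ d = 1 := by rw [← pow_mul, hl]
    have hd : 0 < d := hS.pos
    have hl0 : l ^ d ≠ 0 := by
      intro h0
      rw [h0, zero_pow hd.ne'] at hl'
      exact zero_ne_one hl'
    generalize l ^ d = lam at hl' hl0
    funext j
    rcases eq_or_ne j i with rfl | hj
    · change Function.update (dact ρ lam z) j (a (dact ρ lam z) * dact ρ lam z j +
        b (dact ρ lam z)) j = lam ^ ρ' j * Function.update z j (a z * z j + b z) j
      rw [Function.update_self, Function.update_self, haw lam hl' z, hbw lam hl' z]
      have h2 : lam ^ ρ' j = lam ^ (ρ' j - ρ j) * lam ^ ρ j := by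
        rw [← zpow_add₀ hl0, sub_add_cancel]
      change lam ^ (ρ' j - ρ j) * a z * (lam ^ ρ j * z j) + _ = _
      rw [mul_add, h2]
      ring
    · change Function.update (dact ρ lam z) i (a (dact ρ lam z) * dact ρ lam z i +
        b (dact ρ lam z)) j = lam ^ ρ' j * Function.update z i (a z * z i + b z) j
      rw [Function.update_of_ne hj, Function.update_of_ne hj, hρ j hj]
      rfl

end Pool.Agent.W366.MESub
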