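import Pool.Agent.W982.TA.Stm

/-!
# TA-G4: open segments that meet cross properly
-/

set_option autoImplicit false

namespace Pool.Agent.W982.TA

namespace G4aux

lemma seg_mem {p q r : ℝ × ℝ} (t : ℝ) (h0 : 0 < t) (h1 : t < 1)
    (e1 : r.1 = (1 - t) * p.1 + t * q.1) (e2 : r.2 = (1 - t) * p.2 + t * q.2) :
    r ∈ openSegment ℝ p q := by
  refine ⟨1 - t, t, by linarith, h0, by ring, ?_⟩
  ext
  · simp [e1]
  · simp [e2]

lemma mem_seg {p q r : ℝ × ℝ} (h : r ∈ openSegment ℝ p q) :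
    ∃ t : ℝ, 0 < t ∧ t < 1 ∧ r.1 = (1 - t) * p.1 + t * q.1 ∧ r.2 = (1 - t) * p.2 + t * q.2 := by
  obtain ⟨s, t, hs, ht, hst, rfl⟩ := h
  have e : s = 1 - t := by linarith
  subst e
  refine ⟨t, ht, by linarith, ?_, ?_⟩ <;> simp

/-- a point of the line `a b` -/
def On (a b : Pt) (u : ℝ) (p : Pt) : Prop :=
  (p.1 : ℝ) = a.1 + u * (b.1 - a.1) ∧ (p.2 : ℝ) = a.2 + u * (b.2 - a.2)

lemma exists_on {a b c : Pt} (hab : a ≠ b) (h : dt a b c = 0) : ∃ u : ℝ, On a b u c := by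
  have h' : ((b.1 : ℝ) - a.1) * (c.2 - a.2) - (b.2 - a.2) * (c.1 - a.1) = 0 := by
    unfold dt at h
    exact_mod_cast h
  by_cases hx : b.1 = a.1
  · have hy : b.2 ≠ a.2 := by
      intro hy
      exact hab (Prod.ext hx.symm hy.symm)
    have hy' : ((b.2 : ℝ) - a.2) ≠ 0 := by
      intro h0
      apply hy
      exact_mod_cast sub_eq_zero.1 h0
    have hx' : ((b.1 : ℝ) - a.1) = 0 := by rw [hx, sub_self]
    refine ⟨(c.2 - a.2) / (b.2 - a.2), ?_, ?_⟩
    · rw [hx', mul_zero, add_zero]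
      rw [hx', zero_mul, zero_sub, neg_eq_zero, mul_eq_zero] at h'
      rcases h' with h' | h'
      · exact absurd h' hy'
      · linarith
    · rw [div_mul_cancel₀ _ hy']
      ring
  · have hx' : ((b.1 : ℝ) - a.1) ≠ 0 := by
      intro h0
      apply hx
      exact_mod_cast sub_eq_zero.1 h0
    refine ⟨(c.1 - a.1) / (b.1 - a.1), ?_, ?_⟩
    · rw [div_mul_cancel₀ _ hx']
      ring
    · rw [div_mul_eq_mul_div, ← sub_eq_iff_eq_add', eq_div_iff hx']
      linarith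

lemma on_mem {a b p q r : Pt} {u v w : ℝ} (hp : On a b u p) (hq : On a b v q) (hr : On a b w r)
    (h : (u < w ∧ w < v) ∨ (v < w ∧ w < u)) : emb r ∈ oseg p q := by
  have huv : v - u ≠ 0 := by
    rcases h with h | h
    · linarith [h.1, h.2]
    · have : v - u < 0 := by linarith [h.1, h.2]
      exact this.ne
  have key : (w - u) / (v - u) * (v - u) = w - u := div_mul_cancel₀ _ huv
  refine seg_mem ((w - u) / (v - u)) ?_ ?_ ?_ ?_
  · rcases h with h | h
    · exact div_pos (by linarith) (by linarith)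
    · exact div_pos_of_neg_of_neg (by linarith) (by linarith)
  · rcases h with h | h
    · rw [div_lt_one (by linarith)]
      linarith
    · rw [div_lt_one_of_neg (by linarith)]
      linarith
  · show (r.1 : ℝ) = (1 - (w - u) / (v - u)) * (p.1 : ℝ) + (w - u) / (v - u) * (q.1 : ℝ)
    rw [hp.1, hq.1, hr.1]
    linear_combination (-((b.1 : ℝ) - a.1)) * key
  · show (r.2 : ℝ) = (1 - (w - u) / (v - u)) * (p.2 : ℝ) + (w - u) / (v - u) * (q.2 : ℝ)
    rw [hp.2, hq.2, hr.2]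
    linear_combination (-((b.2 : ℝ) - a.2)) * key

lemma on_eq {a b p : Pt} {u v : ℝ} (hp : On a b u p) {q : Pt} (hq : On a b v q) (h : u = v) :
    p = q := by
  subst h
  refine Prod.ext ?_ ?_
  · have := hp.1.trans hq.1.symm
    exact_mod_cast this
  · have := hp.2.trans hq.2.symm
    exact_mod_cast this

lemma on_zero (a b : Pt) : On a b 0 a := ⟨by ring, by ring⟩
lemma on_one (a b : Pt) : On a b 1 b := ⟨by ring, by ring⟩

lemma collinear {a b c d : Pt} (hab : a ≠ b) (hcd : c ≠ d) (hne : s(a, b) ≠ s(c, d))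
    (ha : emb a ∉ oseg c d) (hb : emb b ∉ oseg c d) (hc : emb c ∉ oseg a b)
    (hd : emb d ∉ oseg a b) (h1 : dt a b c = 0) (h2 : dt a b d = 0) {s t : ℝ} (hs0 : 0 < s)
    (hs1 : s < 1) (ht0 : 0 < t) (ht1 : t < 1)
    (e1 : (1 - s) * (a.1 : ℝ) + s * b.1 = (1 - t) * (c.1 : ℝ) + t * d.1)
    (e2 : (1 - s) * (a.2 : ℝ) + s * b.2 = (1 - t) * (c.2 : ℝ) + t * d.2) : False := by
  obtain ⟨u, hu⟩ := exists_on hab h1
  obtain ⟨v, hv⟩ := exists_on hab h2
  have h0 := on_zero a b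
  have hone := on_one a b
  have huv : u ≠ v := fun h => hcd (on_eq hu hv h)
  -- the parameter of the common point
  have hs : s = (1 - t) * u + t * v := by
    have f1 : (s - ((1 - t) * u + t * v)) * ((b.1 : ℝ) - a.1) = 0 := by
      rw [hu.1, hv.1] at e1
      linear_combination e1
    have f2 : (s - ((1 - t) * u + t * v)) * ((b.2 : ℝ) - a.2) = 0 := by
      rw [hu.2, hv.2] at e2
      linear_combination e2
    by_contra hcon
    have hcon' : s - ((1 - t) * u + t * v) ≠ 0 := fun h => hcon (sub_eq_zero.1 h)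
    apply hab
    refine Prod.ext ?_ ?_
    · have := (mul_eq_zero.1 f1).resolve_left hcon'
      exact_mod_cast (sub_eq_zero.1 this).symm
    · have := (mul_eq_zero.1 f2).resolve_left hcon'
      exact_mod_cast (sub_eq_zero.1 this).symm
  have k1 : ¬ (0 < u ∧ u < 1) := fun h => hc (on_mem h0 hone hu (Or.inl h))
  have k2 : ¬ (0 < v ∧ v < 1) := fun h => hd (on_mem h0 hone hv (Or.inl h))
  have k3 : ¬ ((u < 0 ∧ 0 < v) ∨ (v < 0 ∧ 0 < u)) := fun h => ha (on_mem hu hv h0 h)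
  have k4 : ¬ ((u < 1 ∧ 1 < v) ∨ (v < 1 ∧ 1 < u)) := fun h => hb (on_mem hu hv hone h)
  have fin : (u = 0 ∧ v = 1) ∨ (u = 1 ∧ v = 0) := by
    rcases lt_or_gt_of_ne huv with h | h
    · left
      have m1 : u < s := by rw [hs]; nlinarith
      have m2 : s < v := by rw [hs]; nlinarith
      have m3 : u ≤ 0 := by
        by_contra hc'
        exact k1 ⟨not_le.1 hc', by linarith⟩
      have m4 : 1 ≤ v := by
        by_contra hc'
        exact k2 ⟨by linarith, not_le.1 hc'⟩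
      constructor
      · by_contra hne'
        exact k3 (Or.inl ⟨lt_of_le_of_ne m3 hne', by linarith⟩)
      · by_contra hne'
        exact k4 (Or.inl ⟨by linarith, lt_of_le_of_ne m4 (Ne.symm hne')⟩)
    · right
      have m1 : v < s := by rw [hs]; nlinarith
      have m2 : s < u := by rw [hs]; nlinarith
      have m3 : v ≤ 0 := by
        by_contra hc'
        exact k2 ⟨not_le.1 hc', by linarith⟩
      have m4 : 1 ≤ u := by
        by_contra hc'
        exact k1 ⟨by linarith, not_le.1 hc'⟩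
      constructor
      · by_contra hne'
        exact k4 (Or.inr ⟨by linarith, lt_of_le_of_ne m4 (Ne.symm hne')⟩)
      · by_contra hne'
        exact k3 (Or.inr ⟨lt_of_le_of_ne m3 hne', by linarith⟩)
  apply hne
  rcases fin with ⟨h, h'⟩ | ⟨h, h'⟩
  · rw [on_eq hu h0 h, on_eq hv hone h']
  · rw [on_eq hu hone h, on_eq hv h0 h']
    exact Sym2.eq_swap

end G4aux

open G4aux in
theorem g4 : TaskG4 := by
  intro a b c d hab hcd hne ha hb hc hd hdis
  rw [Set.not_disjoint_iff] at hdis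
  obtain ⟨x, hx1, hx2⟩ := hdis
  obtain ⟨s, hs0, hs1, e1, e2⟩ := mem_seg hx1
  obtain ⟨t, ht0, ht1, e3, e4⟩ := mem_seg hx2
  rw [e1] at e3
  rw [e2] at e4
  change (1 - s) * (a.1 : ℝ) + s * (b.1 : ℝ) = (1 - t) * (c.1 : ℝ) + t * (d.1 : ℝ) at e3
  change (1 - s) * (a.2 : ℝ) + s * (b.2 : ℝ) = (1 - t) * (c.2 : ℝ) + t * (d.2 : ℝ) at e4
  have cα : ((dt a b c : ℤ) : ℝ) = ((b.1 : ℝ) - a.1) * (c.2 - a.2) - (b.2 - a.2) * (c.1 - a.1) := by
    unfold dt
    push_cast
    ring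
  have cβ : ((dt a b d : ℤ) : ℝ) = ((b.1 : ℝ) - a.1) * (d.2 - a.2) - (b.2 - a.2) * (d.1 - a.1) := by
    unfold dt
    push_cast
    ring
  have cγ : ((dt c d a : ℤ) : ℝ) = ((d.1 : ℝ) - c.1) * (a.2 - c.2) - (d.2 - c.2) * (a.1 - c.1) := by
    unfold dt
    push_cast
    ring
  have cδ : ((dt c d b : ℤ) : ℝ) = ((d.1 : ℝ) - c.1) * (b.2 - c.2) - (d.2 - c.2) * (b.1 - c.1) := by
    unfold dt
    push_cast
    ring
  have f1 : (1 - t) * ((dt a b c : ℤ) : ℝ) + t * ((dt a b d : ℤ) : ℝ) = 0 := by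
    rw [cα, cβ]
    linear_combination ((b.2 : ℝ) - a.2) * e3 - ((b.1 : ℝ) - a.1) * e4
  have f2 : (1 - s) * ((dt c d a : ℤ) : ℝ) + s * ((dt c d b : ℤ) : ℝ) = 0 := by
    rw [cγ, cδ]
    linear_combination ((d.1 : ℝ) - c.1) * e4 - ((d.2 : ℝ) - c.2) * e3
  have f3 : ((dt c d b : ℤ) : ℝ) - ((dt c d a : ℤ) : ℝ) =
      ((dt a b c : ℤ) : ℝ) - ((dt a b d : ℤ) : ℝ) := by
    rw [cα, cβ, cγ, cδ]
    ring
  have sgn : ∀ (w p q : ℝ), 0 < w → w < 1 → (1 - w) * p + w * q = 0 → p ≠ 0 → p * q < 0 := by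
    intro w p q h0 h1 h2 h3
    have h4 : w * (p * q) = -((1 - w) * p ^ 2) := by linear_combination p * h2
    have h5 : 0 < (1 - w) * p ^ 2 := by
      have : 0 < p ^ 2 := by positivity
      exact mul_pos (by linarith) this
    by_contra hcon
    have h6 : 0 ≤ w * (p * q) := mul_nonneg h0.le (not_lt.1 hcon)
    linarith
  by_cases hα : dt a b c = 0
  · exfalso
    have hβ : dt a b d = 0 := by
      rw [hα, Int.cast_zero, mul_zero, zero_add, mul_eq_zero] at f1
      have := f1.resolve_left ht0.ne'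
      exact_mod_cast this
    exact collinear hab hcd hne ha hb hc hd hα hβ hs0 hs1 ht0 ht1 e3 e4
  · have hα' : ((dt a b c : ℤ) : ℝ) ≠ 0 := by exact_mod_cast hα
    have g1 := sgn t _ _ ht0 ht1 f1 hα'
    have hγ' : ((dt c d a : ℤ) : ℝ) ≠ 0 := by
      intro h0
      rw [h0, mul_zero, zero_add, mul_eq_zero] at f2
      have h1 := f2.resolve_left hs0.ne'
      rw [h0, h1, sub_zero] at f3
      have h2 : ((dt a b c : ℤ) : ℝ) = ((dt a b d : ℤ) : ℝ) := by linarith
      rw [← h2] at g1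
      have := mul_self_nonneg ((dt a b c : ℤ) : ℝ)
      linarith
    have g2 := sgn s _ _ hs0 hs1 f2 hγ'
    exact ⟨by exact_mod_cast g1, by exact_mod_cast g2⟩

end Pool.Agent.W982.TA
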